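import Pool.Agent.L5helper68.DH.Defs

/-! # Homeomorphisms of disjoint unions -/

namespace Pool.Agent.L5helper68.DH

open Set

section Glue

variable {X : Type} {A B C D : Set X}

open Classical in
/-- the union of two maps -/
private noncomputable def glue (e : A → C) (e' : B → D) (x : (A ∪ B : Set X)) :
    (C ∪ D : Set X) :=
  if h : (x : X) ∈ A then ⟨e ⟨x, h⟩, Or.inl (e ⟨x, h⟩).2⟩
  else ⟨e' ⟨x, x.2.resolve_left h⟩, Or.inr (e' ⟨x, x.2.resolve_left h⟩).2⟩

private lemma glue_left (e : A → C) (e' : B → D) (x : X) (hx : x ∈ A) :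
    (glue e e' ⟨x, Or.inl hx⟩ : X) = e ⟨x, hx⟩ := by
  simp [glue, hx]

private lemma glue_right (hAB : Disjoint A B) (e : A → C) (e' : B → D) (x : X) (hx : x ∈ B) :
    (glue e e' ⟨x, Or.inr hx⟩ : X) = e' ⟨x, hx⟩ := by
  have h : x ∉ A := fun h => (Set.disjoint_left.1 hAB) h hx
  simp [glue, h]

private lemma glue_continuous [TopologicalSpace X] (hA : IsClosed A) (hB : IsClosed B) (hAB : Disjoint A B)
    (e : A → C) (e' : B → D) (he : Continuous e) (he' : Continuous e') :
    Continuous (glue e e') := by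
  have h1 : ContinuousOn (glue e e') {x : (A ∪ B : Set X) | (x : X) ∈ A} := by
    rw [continuousOn_iff_continuous_domRestrict]
    have h2 : Continuous (fun x : {x : (A ∪ B : Set X) | (x : X) ∈ A} =>
        (⟨e ⟨x.1.1, x.2⟩, Or.inl (e ⟨x.1.1, x.2⟩).2⟩ : (C ∪ D : Set X))) := by
      apply Continuous.subtype_mk
      apply continuous_subtype_val.comp
      apply he.comp
      apply Continuous.subtype_mk
      exact continuous_subtype_val.comp continuous_subtype_val
    refine h2.congr fun x => ?_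
    apply Subtype.ext
    exact (glue_left e e' x.1.1 x.2).symm
  have h3 : ContinuousOn (glue e e') {x : (A ∪ B : Set X) | (x : X) ∈ B} := by
    rw [continuousOn_iff_continuous_domRestrict]
    have h2 : Continuous (fun x : {x : (A ∪ B : Set X) | (x : X) ∈ B} =>
        (⟨e' ⟨x.1.1, x.2⟩, Or.inr (e' ⟨x.1.1, x.2⟩).2⟩ : (C ∪ D : Set X))) := by
      apply Continuous.subtype_mk
      apply continuous_subtype_val.comp
      apply he'.comp
      apply Continuous.subtype_mk
      exact continuous_subtype_val.comp continuous_subtype_val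
    refine h2.congr fun x => ?_
    apply Subtype.ext
    exact (glue_right hAB e e' x.1.1 x.2).symm
  have h4 := h1.union_of_isClosed h3 (hA.preimage continuous_subtype_val)
    (hB.preimage continuous_subtype_val)
  rw [← continuousOn_univ]
  refine h4.mono fun x _ => ?_
  exact x.2

private lemma glue_glue (hAB : Disjoint A B) (hCD : Disjoint C D) (e : A ≃ C) (e' : B ≃ D)
    (x : (A ∪ B : Set X)) : glue e.symm e'.symm (glue e e' x) = x := by
  obtain ⟨x, hx⟩ := x
  apply Subtype.ext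
  rcases hx with hx | hx
  · have h1 : glue e e' ⟨x, Or.inl hx⟩ = ⟨e ⟨x, hx⟩, Or.inl (e ⟨x, hx⟩).2⟩ :=
      Subtype.ext (glue_left e e' x hx)
    rw [h1, glue_left _ _ _ (e ⟨x, hx⟩).2]
    simp
  · have h1 : glue e e' ⟨x, Or.inr hx⟩ = ⟨e' ⟨x, hx⟩, Or.inr (e' ⟨x, hx⟩).2⟩ :=
      Subtype.ext (glue_right hAB e e' x hx)
    rw [h1, glue_right hCD _ _ _ (e' ⟨x, hx⟩).2]
    simp

end Glue

/-- J2: union of homeomorphisms and of PL homeomorphisms -/
theorem homeo_union {A B C D : Set (ℕ → ℝ)} (hA : IsClosed A) (hB : IsClosed B) (hC : IsClosed C)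
    (hD : IsClosed D) (hAB : Disjoint A B) (hCD : Disjoint C D) (e : A ≃ₜ C) (e' : B ≃ₜ D) :
    ∃ f : (A ∪ B : Set (ℕ → ℝ)) ≃ₜ (C ∪ D : Set (ℕ → ℝ)),
      (∀ x (hx : x ∈ A), (f ⟨x, Or.inl hx⟩ : ℕ → ℝ) = e ⟨x, hx⟩) ∧
      (∀ x (hx : x ∈ B), (f ⟨x, Or.inr hx⟩ : ℕ → ℝ) = e' ⟨x, hx⟩) ∧
      (∀ x (hx : x ∈ C), (f.symm ⟨x, Or.inl hx⟩ : ℕ → ℝ) = e.symm ⟨x, hx⟩) ∧
      (∀ x (hx : x ∈ D), (f.symm ⟨x, Or.inr hx⟩ : ℕ → ℝ) = e'.symm ⟨x, hx⟩) := by
  refine ⟨{ toFun := glue e e'
            invFun := glue e.symm e'.symm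
            left_inv := glue_glue hAB hCD e.toEquiv e'.toEquiv
            right_inv := glue_glue hCD hAB e.toEquiv.symm e'.toEquiv.symm
            continuous_toFun := glue_continuous hA hB hAB _ _ e.continuous e'.continuous
            continuous_invFun :=
              glue_continuous hC hD hCD _ _ e.symm.continuous e'.symm.continuous },
    fun x hx => glue_left _ _ x hx, fun x hx => glue_right hAB _ _ x hx,
    fun x hx => glue_left _ _ x hx, fun x hx => glue_right hCD _ _ x hx⟩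

end Pool.Agent.L5helper68.DH
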