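import Mathlib

/-!
# The algebra of motivic Euler sums and motivic multiple mixed values

The standard structure of the algebra `H²` of motivic Euler sums, motivic multiple mixed values,
and the statement of Q1 of the problem on slender unramified ones.
-/

set_option autoImplicit false

namespace Pool.Agent.L5helper5.MES

open Finset

/-- A word `[a₁, …, a_n]` in the letters `0, 1, -1`. -/
abbrev Word := List SignType

/-- All shuffles of two words, with multiplicities. -/
def shuffles : Word → Word → List Word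
  | [], v => [v]
  | a :: u, [] => [a :: u]
  | a :: u, b :: v => (shuffles u (b :: v)).map (a :: ·) ++ (shuffles (a :: u) v).map (b :: ·)
termination_by u v => u.length + v.length

/-- `d (I(0; S; e))` for `e = 0, 1, -1`, for a map `d` that kills products: it is `0` for `e = 0`
(a closed path of length zero), and homothety by `-1` brings `e = -1` to `e = 1`. -/
def endVal {H : Type} [Zero H] (d : H → H) (I : Word → H) (S : Word) : SignType → H
  | .zero => 0
  | .pos => d (I S)
  | .neg => d (I (S.map fun a => -a))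

/-- The algebra `H²` of motivic Euler sums in the framework named by the question
(Deligne–Goncharov, Brown, Deligne, Glanois), by its standard properties.

* `H` is a commutative `ℚ`-algebra, graded by the weight (`gr`), with `gr 0 = ℚ`.
* `I w = I^m(0; w; 1)` is the motivic iterated integral attached to the word `w` in the
  letters `0, 1, -1`, with the usual tangential base points at `0` and `1`; it has weight the
  length of `w`, `I [0] = I [1] = 0`, and `I` turns shuffles into products.
* The motivic Lie algebra of the category of mixed Tate motives over `ℤ[1/2]` is free on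
  generators `σ_r`, one in each odd degree `r ≥ 1` (Borel, Deligne–Goncharov).  `D r` is the
  action of `σ_r` on `H²`: a derivation of weight `-r` (`D_mem`, `D_low`, `D_mul`).
* `D_I` is the formula of Goncharov and Brown for the coaction, paired with `σ_r`:
  `D_r I(a_0; a_1, …, a_n; a_{n+1})` is the sum over `p` of
  `σ_r (I(a_p; a_{p+1}, …, a_{p+r}; a_{p+r+1})) I(a_0; a_1, …, a_p, a_{p+r+1}, …, a_n; a_{n+1})`
  with `a_0 = 0`, `a_{n+1} = 1`.  Since `σ_r` kills products, the path composition formula gives
  `σ_r (I(a; S; b)) = σ_r (I(0; S; b)) - σ_r (I(0; S; a))`, and homothety gives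
  `σ_r (I(0; S; -1)) = σ_r (I(0; -S; 1))`; this is `endVal`.
* `D_zeta` normalises `σ_r` by `σ_r (ζ^m(r)) = 1` for odd `r ≥ 3`.
* `kernel`: the elements of weight `n` killed by all `σ_r` are the rational multiples of
  `ζ^m(2)^{n/2}` (none but zero when `n` is odd), where `ζ^m(2) = -I(0; 1, 0; 1)`. -/
structure MotivicEulerSums where
  /-- the algebra of motivic Euler sums -/
  H : Type
  [ring : CommRing H]
  [algebra : Algebra ℚ H]
  /-- the part of weight `n` -/
  gr : ℕ → Submodule ℚ H
  /-- the motivic iterated integral `I^m(0; w; 1)` -/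
  I : Word → H
  /-- the derivation `σ_r`, for odd `r` -/
  D : ℕ → H →ₗ[ℚ] H
  gr_zero : gr 0 = Submodule.span ℚ {1}
  mul_mem : ∀ (m n : ℕ) (x y : H), x ∈ gr m → y ∈ gr n → x * y ∈ gr (m + n)
  I_mem : ∀ w : Word, I w ∈ gr w.length
  I_nil : I [] = 1
  I_zero : I [0] = 0
  I_one : I [1] = 0
  I_mul : ∀ u v : Word, I u * I v = ((shuffles u v).map I).sum
  D_mem : ∀ (r n : ℕ) (x : H), Odd r → x ∈ gr (n + r) → D r x ∈ gr n
  D_low : ∀ (r n : ℕ) (x : H), Odd r → x ∈ gr n → n < r → D r x = 0
  D_mul : ∀ (r : ℕ) (x y : H), Odd r → D r (x * y) = D r x * y + x * D r y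
  D_I : ∀ (r : ℕ) (w : Word), Odd r → D r (I w) = ∑ p ∈ range (w.length + 1 - r),
    (endVal (D r) I ((w.drop p).take r) ((w.drop (p + r)).headD 1) -
      endVal (D r) I ((w.drop p).take r) ((w.take p).getLastD 0)) *
        I (w.take p ++ w.drop (p + r))
  D_zeta : ∀ r : ℕ, Odd r → 3 ≤ r → D r (-I (1 :: List.replicate (r - 1) 0)) = 1
  kernel : ∀ (n : ℕ) (x : H), x ∈ gr n → (∀ r : ℕ, Odd r → D r x = 0) →
    x ∈ Submodule.span ℚ {z : H | ∃ k : ℕ, 2 * k = n ∧ z = (-I [1, 0]) ^ k}

attribute [instance] MotivicEulerSums.ring MotivicEulerSums.algebra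

/-- The word `a₁ 0^{s₁-1} ⋯ a_d 0^{s_d-1}` with `a_j = η_j ⋯ η_d`, for which
`(-1)^d I(0; a₁ 0^{s₁-1} ⋯ a_d 0^{s_d-1}; 1)` is the sum over `0 < m_1 < ⋯ < m_d` of the
products of the `η_j^{m_j} / m_j^{s_j}`. -/
def word : List (ℕ × SignType) → Word
  | [] => []
  | (s, η) :: L => (η * (L.map Prod.snd).prod) :: (List.replicate (s - 1) 0 ++ word L)

/-- All vectors of `d` signs. -/
def signVectors : ℕ → List (List SignType)
  | 0 => [[]]
  | d + 1 => (signVectors d).map (1 :: ·) ++ (signVectors d).map (-1 :: ·)

/-- The product of the `ε_j` with `η_j = -1`: the coefficient of `η_1^{m_1} ⋯ η_d^{m_d}` in the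
product of the `1 + ε_j (-1)^{m_j}`. -/
def coefficient (ε η : List SignType) : ℤ :=
  ((ε.zip η).map fun p => if p.2 = -1 then (p.1 : ℤ) else 1).prod

/-- all `s_j ≥ 1`, and the last one is at least two -/
def Admissible (s : List ℕ) : Prop := (∀ k ∈ s, 1 ≤ k) ∧ ∀ k ∈ s.getLast?, 2 ≤ k

/-- the width, the greatest `s_j`, is three -/
def Slender (s : List ℕ) : Prop := 3 ∈ s ∧ ∀ k ∈ s, k ≤ 3

namespace MotivicEulerSums

variable (𝓜 : MotivicEulerSums)

/-- The motivic Euler sum `ζ^m(s; η)`, for the list of the pairs `(s_j, η_j)`. -/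
def eulerSum (L : List (ℕ × SignType)) : 𝓜.H := (-1) ^ L.length * 𝓜.I (word L)

/-- The motivic multiple mixed value `M^m(s; ε)`: the factors `1 + ε_j (-1)^{m_j}` are multiplied
out, and the resulting sums are replaced by motivic iterated integrals. -/
def mmv (s : List ℕ) (ε : List SignType) : 𝓜.H :=
  ((signVectors s.length).map fun η => (coefficient ε η : 𝓜.H) * 𝓜.eulerSum (s.zip η)).sum

/-- The span `H¹` of the motivic multiple zeta values. -/
def H1 : Submodule ℚ 𝓜.H :=
  Submodule.span ℚ {x | ∃ s : List ℕ, Admissible s ∧ x = 𝓜.eulerSum (s.map fun k => (k, 1))}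

/-- The statement of Q1: an unramified slender motivic multiple mixed value of depth at least six
has a constant sign vector, or the alternating one and an index of one of the two shapes. -/
def Question : Prop :=
  ∀ (s : List ℕ) (ε : List SignType), 6 ≤ s.length → ε.length = s.length →
    (∀ e ∈ ε, e = 1 ∨ e = -1) → Admissible s → Slender s → 𝓜.mmv s ε ∈ 𝓜.H1 →
    (∀ e ∈ ε, e = 1) ∨ (∀ e ∈ ε, e = -1) ∨
    ((∀ j (hj : j < ε.length), ε[j] = (-1) ^ (j + 1)) ∧
      ∃ k l : ℕ, s = List.replicate (2 * k) 1 ++ (3 :: (List.replicate (2 * l) 1 ++ [2])) ∨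
        s = List.replicate (2 * k) 1 ++ [3])

end MotivicEulerSums

end Pool.Agent.L5helper5.MES
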