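import Pool.Agent.L5helper5.MESDefs

/-!
# Slender unramified motivic multiple mixed values: the classification of Q1 fails

`M^m(2,3,1,2,1,2; 1,1,1,1,-1,1)` is unramified, although its sign vector is neither constant nor
alternating.  Write `A = -(e_1 + e_{-1})` and `B = -e_1 + e_{-1}`.  The value is the motivic
iterated integral of the word `A0A00AA0BB0`.  In these letters the coaction takes a simple form
(`D_J`), and the words

`A0A00AA0BB0, A0A00AA0, A0A00BB0, A0AA0BB0, A0A0A0, AA0BB0, A0A00, A0AA0, A0BB0, A0A0, AA0, BB0, A0`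

span, with the constants, a space stable under all `D_r` with `r ≥ 3` and killed by `D_1`
(`ur_A0A00AA0BB0`).  Descending induction on the weight then shows that every element of weight
eleven with this property is a combination of nine explicit motivic multiple zeta values
(`ur11`).
-/

set_option autoImplicit false

namespace Pool.Agent.L5helper5.MES

open Finset

/-- generalized letters -/
inductive T | O | A | B
  deriving DecidableEq, Repr

/-- multilinear extension: `A = -(e₁ + e₋₁)`, `B = -e₁ + e₋₁` -/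
def E {H : Type} [AddCommGroup H] : (Word → H) → List T → H
  | f, [] => f []
  | f, .O :: W => E (fun w => f (0 :: w)) W
  | f, .A :: W => -E (fun w => f (1 :: w)) W - E (fun w => f (-1 :: w)) W
  | f, .B :: W => -E (fun w => f (1 :: w)) W + E (fun w => f (-1 :: w)) W

section
variable {H : Type} [AddCommGroup H]

theorem E_congr (W : List T) : ∀ f g : Word → H, (∀ w, w.length = W.length → f w = g w) →
    E f W = E g W := by
  induction W with
  | nil => intro f g h; exact h [] rfl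
  | cons a W ih =>
    intro f g h
    have h' : ∀ c : SignType, E (fun w => f (c :: w)) W = E (fun w => g (c :: w)) W :=
      fun c => ih _ _ fun w hw => h _ (by simp [hw])
    cases a <;> simp only [E, h']

theorem E_zero (W : List T) : E (fun _ => (0 : H)) W = 0 := by
  induction W with
  | nil => rfl
  | cons a W ih => cases a <;> simp [E, ih]

theorem E_add (W : List T) : ∀ f g : Word → H, E (fun w => f w + g w) W = E f W + E g W := by
  induction W with
  | nil => intro f g; rfl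
  | cons a W ih => intro f g; cases a <;> simp only [E, ih] <;> abel

theorem E_neg (W : List T) : ∀ f : Word → H, E (fun w => -f w) W = -E f W := by
  induction W with
  | nil => intro f; rfl
  | cons a W ih => intro f; cases a <;> simp only [E, ih] <;> abel

theorem E_sub (W : List T) (f g : Word → H) : E (fun w => f w - g w) W = E f W - E g W := by
  simp only [sub_eq_add_neg, E_add, E_neg]

theorem E_sum {ι : Type} (s : Finset ι) (W : List T) (f : ι → Word → H) :
    E (fun w => ∑ i ∈ s, f i w) W = ∑ i ∈ s, E (f i) W := by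
  classical
  induction s using Finset.induction_on with
  | empty => simp [E_zero]
  | insert a s ha ih => simp only [Finset.sum_insert ha, E_add, ih]

theorem E_map {H' : Type} [AddCommGroup H'] (F : H →+ H') (W : List T) :
    ∀ f : Word → H, E (fun w => F (f w)) W = F (E f W) := by
  induction W with
  | nil => intro f; rfl
  | cons a W ih => intro f; cases a <;> simp [E, ih]

theorem E_append (U : List T) : ∀ (V : List T) (f : Word → H),
    E f (U ++ V) = E (fun u => E (fun v => f (u ++ v)) V) U := by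
  induction U with
  | nil => intro V f; rfl
  | cons a U ih => intro V f; cases a <;> simp only [List.cons_append, E, ih]

theorem E_comm {H : Type} [AddCommGroup H] (U : List T) : ∀ (V : List T) (F : Word → Word → H),
    E (fun u => E (fun v => F u v) V) U = E (fun v => E (fun u => F u v) U) V := by
  induction U with
  | nil => intro V F; rfl
  | cons a U ih =>
    intro V F
    cases a with
    | O => simp only [E]; exact ih V _
    | A =>
      simp only [E, E_sub, E_neg]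
      rw [ih V (fun u v => F (1 :: u) v), ih V (fun u v => F (-1 :: u) v)]
    | B =>
      simp only [E, E_add, E_neg]
      rw [ih V (fun u v => F (1 :: u) v), ih V (fun u v => F (-1 :: u) v)]

/-- parity of the number of letters `B` -/
def odd : List T → Bool
  | [] => false
  | .B :: W => !(odd W)
  | .A :: W => odd W
  | .O :: W => odd W

/-- exchange `A` and `B` -/
def star : T → T
  | .O => .O
  | .A => .B
  | .B => .A

theorem E_map_neg {H : Type} [AddCommGroup H] (W : List T) : ∀ f : Word → H,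
    E (fun w => f (w.map fun a => -a)) W = cond (odd W) (-E f W) (E f W) := by
  induction W with
  | nil => intro f; rfl
  | cons a W ih =>
    intro f
    cases a with
    | O =>
      have h := ih (fun w => f (0 :: w))
      simp only [E, List.map_cons, odd]
      exact h
    | A =>
      have h := ih (fun w => f (1 :: w))
      have h' := ih (fun w => f (-1 :: w))
      simp only [E, List.map_cons, odd, neg_neg]
      rw [h, h']
      generalize odd W = b
      cases b <;> simp only [cond_true, cond_false] <;> abel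
    | B =>
      have h := ih (fun w => f (1 :: w))
      have h' := ih (fun w => f (-1 :: w))
      simp only [E, List.map_cons, odd, neg_neg]
      rw [h, h']
      generalize odd W = b
      cases b <;> simp only [cond_true, cond_false, Bool.not_true, Bool.not_false] <;> abel

section
variable {H : Type} [CommRing H]

/-- the coefficient attached to a boundary point -/
def bd (b : Bool) (c : H) : SignType → H
  | .zero => 0
  | .pos => c
  | .neg => cond b (-c) c

theorem E_mul_left (W : List T) (c : H) (f : Word → H) : E (fun w => c * f w) W = c * E f W :=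
  E_map (AddMonoidHom.mulLeft c) W f

theorem E_mul_right (W : List T) (c : H) (f : Word → H) : E (fun w => f w * c) W = E f W * c :=
  E_map (AddMonoidHom.mulRight c) W f

theorem E_endVal (d : H →+ H) (I : Word → H) (S : List T) (e : SignType) :
    E (fun s => endVal d I s e) S = bd (odd S) (d (E I S)) e := by
  cases e with
  | zero => exact E_zero S
  | pos => exact E_map d S I
  | neg =>
    have h := E_map_neg S (fun w => d (I w))
    have h' := E_map d S I
    simp only [endVal, bd]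
    rw [h, h']

/-- the contribution of the right neighbour -/
def rightG (b : Bool) (g : Word → H) : List T → H
  | [] => g []
  | .O :: _ => 0
  | .A :: V => E g ((cond b .B .A) :: V)
  | .B :: V => E g ((cond b .A .B) :: V)

theorem E_right (b : Bool) (c : H) (V : List T) (g : Word → H) :
    E (fun v => bd b c (v.headD 1) * g v) V = c * rightG b g V := by
  cases V with
  | nil => rfl
  | cons a V =>
    cases a with
    | O =>
      simp only [E, rightG, List.headD_cons]
      have : (fun w : Word => bd b c 0 * g (0 :: w)) = fun _ => 0 := by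
        funext w; simp only [bd]; exact zero_mul _
      rw [this, E_zero, mul_zero]
    | A =>
      simp only [E, rightG, List.headD_cons]
      have h1 : (fun w : Word => bd b c 1 * g (1 :: w)) = fun w => c * g (1 :: w) := rfl
      have h2 : (fun w : Word => bd b c (-1) * g (-1 :: w)) =
        fun w => (cond b (-c) c) * g (-1 :: w) := rfl
      rw [h1, h2, E_mul_left, E_mul_left]
      cases b <;> simp [E] <;> ring
    | B =>
      simp only [E, rightG, List.headD_cons]
      have h1 : (fun w : Word => bd b c 1 * g (1 :: w)) = fun w => c * g (1 :: w) := rfl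
      have h2 : (fun w : Word => bd b c (-1) * g (-1 :: w)) =
        fun w => (cond b (-c) c) * g (-1 :: w) := rfl
      rw [h1, h2, E_mul_left, E_mul_left]
      cases b <;> simp [E] <;> ring

/-- the contribution of the left neighbour -/
def leftG (b : Bool) (g : Word → H) (U : List T) : H :=
  match U.getLast? with
  | none => 0
  | some .O => 0
  | some .A => E g (U.dropLast ++ [cond b .B .A])
  | some .B => E g (U.dropLast ++ [cond b .A .B])

theorem E_left (b : Bool) (c : H) (U : List T) (g : Word → H) :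
    E (fun u => bd b c (u.getLastD 0) * g u) U = c * leftG b g U := by
  rcases List.eq_nil_or_concat U with rfl | ⟨U, a, rfl⟩
  · simp only [E, leftG, List.getLast?_nil, mul_zero]
    exact zero_mul _
  · rw [List.concat_eq_append, E_append]
    have key : ∀ (u : Word) (e : SignType), (u ++ [e]).getLastD 0 = e := by
      intro u e; simp
    have hd : (U ++ [a]).dropLast = U := by simp
    have hl : (U ++ [a]).getLast? = some a := by simp
    cases a with
    | O =>
      simp only [E, leftG, hl, mul_zero, key]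
      have : (fun u : Word => bd b c 0 * g (u ++ [0])) = fun _ => 0 := by
        funext w; simp only [bd]; exact zero_mul _
      rw [this, E_zero]
    | A =>
      simp only [E, leftG, hl, hd, key]
      rw [E_append]
      have h1 : (fun u : Word => -(bd b c 1 * g (u ++ [1])) - bd b c (-1) * g (u ++ [-1])) =
        fun u => c * (-g (u ++ [1]) - (cond b (-1) 1) * g (u ++ [-1])) := by
        funext u
        have e1 : bd b c 1 = c := rfl
        have e2 : bd b c (-1) = cond b (-c) c := rfl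
        rw [e1, e2]
        cases b <;> simp <;> ring
      rw [h1, E_mul_left]
      cases b <;> simp [E]
    | B =>
      simp only [E, leftG, hl, hd, key]
      rw [E_append]
      have h1 : (fun u : Word => -(bd b c 1 * g (u ++ [1])) + bd b c (-1) * g (u ++ [-1])) =
        fun u => c * (-g (u ++ [1]) + (cond b (-1) 1) * g (u ++ [-1])) := by
        funext u
        have e1 : bd b c 1 = c := rfl
        have e2 : bd b c (-1) = cond b (-c) c := rfl
        rw [e1, e2]
        cases b <;> simp <;> ring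
      rw [h1, E_mul_left]
      cases b <;> simp [E, sub_eq_add_neg]

end

namespace MotivicEulerSums

variable (𝓜 : MotivicEulerSums)

/-- the element attached to a word in the generalized letters -/
def J (W : List T) : 𝓜.H := E 𝓜.I W

/-- the contribution of the right neighbour -/
def R (b : Bool) (U : List T) : List T → 𝓜.H
  | [] => 𝓜.J U
  | .O :: _ => 0
  | .A :: V => 𝓜.J (U ++ (cond b .B .A) :: V)
  | .B :: V => 𝓜.J (U ++ (cond b .A .B) :: V)

/-- the contribution of the left neighbour -/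
def L (b : Bool) (U V : List T) : 𝓜.H :=
  match U.getLast? with
  | none => 0
  | some .O => 0
  | some .A => 𝓜.J (U.dropLast ++ (cond b .B .A) :: V)
  | some .B => 𝓜.J (U.dropLast ++ (cond b .A .B) :: V)

theorem R_eq (b : Bool) (U V : List T) :
    rightG b (fun v => E (fun u => 𝓜.I (u ++ v)) U) V = 𝓜.R b U V := by
  have h : ∀ V' : List T, E (fun v => E (fun u => 𝓜.I (u ++ v)) U) V' = 𝓜.J (U ++ V') := by
    intro V'
    rw [J, E_append, E_comm]
  cases V with
  | nil => simp only [rightG, R, J, List.append_nil]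
  | cons a V => cases a <;> simp only [rightG, R, h]

theorem L_eq (b : Bool) (U V : List T) :
    leftG b (fun u => E (fun v => 𝓜.I (u ++ v)) V) U = 𝓜.L b U V := by
  have h : ∀ U' : List T, E (fun u => E (fun v => 𝓜.I (u ++ v)) V) U' = 𝓜.J (U' ++ V) := by
    intro U'
    rw [J, E_append]
  simp only [leftG, L]
  cases U.getLast? with
  | none => rfl
  | some a => cases a <;> simp only [h, List.append_assoc, List.singleton_append]

theorem window (r : ℕ) (U S V : List T) :
    E (fun u => E (fun s => E (fun v => (endVal (𝓜.D r) 𝓜.I s (v.headD 1) -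
      endVal (𝓜.D r) 𝓜.I s (u.getLastD 0)) * 𝓜.I (u ++ v)) V) S) U =
    𝓜.D r (𝓜.J S) * (𝓜.R (odd S) U V - 𝓜.L (odd S) U V) := by
  have h1 : ∀ u : Word, E (fun s => E (fun v => (endVal (𝓜.D r) 𝓜.I s (v.headD 1) -
      endVal (𝓜.D r) 𝓜.I s (u.getLastD 0)) * 𝓜.I (u ++ v)) V) S =
      E (fun v => bd (odd S) (𝓜.D r (𝓜.J S)) (v.headD 1) * 𝓜.I (u ++ v)) V -
      bd (odd S) (𝓜.D r (𝓜.J S)) (u.getLastD 0) * E (fun v => 𝓜.I (u ++ v)) V := by
    intro u
    rw [E_comm]
    have h2 : ∀ v : Word, E (fun s => (endVal (𝓜.D r) 𝓜.I s (v.headD 1) -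
      endVal (𝓜.D r) 𝓜.I s (u.getLastD 0)) * 𝓜.I (u ++ v)) S =
      bd (odd S) (𝓜.D r (𝓜.J S)) (v.headD 1) * 𝓜.I (u ++ v) -
      bd (odd S) (𝓜.D r (𝓜.J S)) (u.getLastD 0) * 𝓜.I (u ++ v) := by
      intro v
      rw [E_mul_right, E_sub, sub_mul]
      have h3 := fun e => E_endVal (𝓜.D r).toAddMonoidHom 𝓜.I S e
      simp only [LinearMap.toAddMonoidHom_coe] at h3
      rw [h3, h3]
      rfl
    simp only [h2]
    rw [E_sub, E_mul_left]
  simp only [h1]
  rw [E_sub, E_left, L_eq, E_comm]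
  simp only [E_mul_left]
  rw [E_right, R_eq, mul_sub]

theorem D_J (r : ℕ) (hr : Odd r) (W : List T) : 𝓜.D r (𝓜.J W) =
    ∑ p ∈ range (W.length + 1 - r), 𝓜.D r (𝓜.J ((W.drop p).take r)) *
      (𝓜.R (odd ((W.drop p).take r)) (W.take p) (W.drop (p + r)) -
        𝓜.L (odd ((W.drop p).take r)) (W.take p) (W.drop (p + r))) := by
  have h0 : 𝓜.D r (𝓜.J W) = E (fun w => 𝓜.D r (𝓜.I w)) W :=
    (E_map (𝓜.D r).toAddMonoidHom W 𝓜.I).symm
  rw [h0, E_congr W _ (fun w => ∑ p ∈ range (W.length + 1 - r),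
    (endVal (𝓜.D r) 𝓜.I ((w.drop p).take r) ((w.drop (p + r)).headD 1) -
      endVal (𝓜.D r) 𝓜.I ((w.drop p).take r) ((w.take p).getLastD 0)) *
        𝓜.I (w.take p ++ w.drop (p + r))) (fun w hw => by rw [𝓜.D_I r w hr, hw]), E_sum]
  refine Finset.sum_congr rfl fun p hp => ?_
  rw [Finset.mem_range] at hp
  rw [← window]
  -- split the word
  have hW : W = W.take p ++ ((W.drop p).take r ++ W.drop (p + r)) := by
    rw [← List.drop_drop, List.take_append_drop, List.take_append_drop]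
  have h4 : ∀ (U S V : List T) (F : Word → 𝓜.H), E F (U ++ (S ++ V)) =
      E (fun u => E (fun s => E (fun v => F (u ++ (s ++ v))) V) S) U := by
    intro U S V F
    rw [E_append]
    simp only [E_append]
  conv_lhs => rw [hW]
  rw [h4]
  refine E_congr _ _ _ fun u hu => E_congr _ _ _ fun s hs => E_congr _ _ _ fun v hv => ?_
  have hpW : p ≤ W.length := by omega
  have hu' : u.length = p := by rw [hu, List.length_take, min_eq_left hpW]
  have hs' : s.length = r := by
    rw [hs, List.length_take, List.length_drop, min_eq_left (by omega)]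
  have e1 : (u ++ (s ++ v)).drop p = s ++ v := by rw [← hu', List.drop_left]
  have e2 : (s ++ v).take r = s := by rw [← hs', List.take_left]
  have e3 : (u ++ (s ++ v)).drop (p + r) = v := by
    rw [← List.drop_drop, e1, ← hs', List.drop_left]
  have e4 : (u ++ (s ++ v)).take p = u := by rw [← hu', List.take_left]
  rw [e1, e2, e3, e4]

theorem E_mem {S : Submodule ℚ 𝓜.H} (W : List T) : ∀ f : Word → 𝓜.H,
    (∀ w, w.length = W.length → f w ∈ S) → E f W ∈ S := by
  induction W with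
  | nil => intro f h; exact h [] rfl
  | cons a W ih =>
    intro f h
    have h' : ∀ c : SignType, E (fun w => f (c :: w)) W ∈ S :=
      fun c => ih _ fun w hw => h _ (by simp [hw])
    cases a with
    | O => exact h' 0
    | A => exact S.sub_mem (S.neg_mem (h' 1)) (h' (-1))
    | B => exact S.add_mem (S.neg_mem (h' 1)) (h' (-1))

theorem J_mem (W : List T) : 𝓜.J W ∈ 𝓜.gr W.length :=
  𝓜.E_mem W 𝓜.I fun w hw => hw ▸ 𝓜.I_mem w

/-- all iterated derivatives of `x` by `D r`, `r ≥ 3` odd, are killed by `D 1` -/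
def UR (x : 𝓜.H) : Prop :=
  ∀ l : List ℕ, (∀ r ∈ l, Odd r ∧ 3 ≤ r) → 𝓜.D 1 (l.foldl (fun y r => 𝓜.D r y) x) = 0

variable {𝓜}

theorem UR.one' {x : 𝓜.H} (h : 𝓜.UR x) : 𝓜.D 1 x = 0 := h [] (by simp)

theorem UR.D {x : 𝓜.H} (h : 𝓜.UR x) {r : ℕ} (hr : Odd r) (h3 : 3 ≤ r) : 𝓜.UR (𝓜.D r x) := by
  intro l hl
  exact h (r :: l) (by
    intro t ht
    rcases List.mem_cons.1 ht with rfl | ht
    · exact ⟨hr, h3⟩
    · exact hl t ht)

theorem UR.intro {x : 𝓜.H} (h1 : 𝓜.D 1 x = 0) (h : ∀ r, Odd r → 3 ≤ r → 𝓜.UR (𝓜.D r x)) :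
    𝓜.UR x := by
  intro l hl
  cases l with
  | nil => exact h1
  | cons r l =>
    have hr := hl r (by simp)
    exact h r hr.1 hr.2 l fun t ht => hl t (List.mem_cons_of_mem _ ht)

theorem foldl_add (l : List ℕ) : ∀ x y : 𝓜.H, l.foldl (fun y r => 𝓜.D r y) (x + y) =
    l.foldl (fun y r => 𝓜.D r y) x + l.foldl (fun y r => 𝓜.D r y) y := by
  induction l with
  | nil => intro x y; rfl
  | cons r l ih => intro x y; simp only [List.foldl_cons, map_add, ih]

theorem foldl_smul (l : List ℕ) (c : ℚ) : ∀ x : 𝓜.H, l.foldl (fun y r => 𝓜.D r y) (c • x) =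
    c • l.foldl (fun y r => 𝓜.D r y) x := by
  induction l with
  | nil => intro x; rfl
  | cons r l ih => intro x; simp only [List.foldl_cons, map_smul, ih]

theorem UR.add {x y : 𝓜.H} (hx : 𝓜.UR x) (hy : 𝓜.UR y) : 𝓜.UR (x + y) := by
  intro l hl
  rw [foldl_add, map_add, hx l hl, hy l hl, add_zero]

theorem UR.smul {x : 𝓜.H} (hx : 𝓜.UR x) (c : ℚ) : 𝓜.UR (c • x) := by
  intro l hl
  rw [foldl_smul, map_smul, hx l hl, smul_zero]

theorem UR.zero : 𝓜.UR 0 := by
  have h := foldl_smul (𝓜 := 𝓜)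
  intro l hl
  have := h l 0 0
  rw [zero_smul, zero_smul] at this
  rw [this, map_zero]

theorem UR.neg {x : 𝓜.H} (hx : 𝓜.UR x) : 𝓜.UR (-x) := by
  have := hx.smul (-1)
  rwa [neg_one_smul] at this

theorem UR.sub {x y : 𝓜.H} (hx : 𝓜.UR x) (hy : 𝓜.UR y) : 𝓜.UR (x - y) := by
  rw [sub_eq_add_neg]; exact hx.add hy.neg

theorem UR.one : 𝓜.UR 1 := by
  have h1 : (1 : 𝓜.H) ∈ 𝓜.gr 0 := by rw [𝓜.gr_zero]; exact Submodule.subset_span rfl
  refine UR.intro (𝓜.D_low 1 0 1 odd_one h1 one_pos) fun r hr h3 => ?_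
  rw [𝓜.D_low r 0 1 hr h1 (by omega)]
  exact UR.zero

/-- multiplication by scalars, given as elements of weight zero -/
theorem UR.cmul {c x : 𝓜.H} (hc : c ∈ 𝓜.gr 0) (hx : 𝓜.UR x) : 𝓜.UR (c * x) := by
  rw [𝓜.gr_zero, Submodule.mem_span_singleton] at hc
  obtain ⟨q, rfl⟩ := hc
  rw [smul_mul_assoc, one_mul]
  exact hx.smul q

theorem J_scalar {r : ℕ} (hr : Odd r) (S : List T) (hS : S.length = r) :
    𝓜.D r (𝓜.J S) ∈ 𝓜.gr 0 := by
  refine 𝓜.D_mem r 0 _ hr ?_
  rw [zero_add, ← hS]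
  exact 𝓜.J_mem S

theorem J_A : 𝓜.J [.A] = -𝓜.I [-1] := by
  simp [J, E, 𝓜.I_one]

theorem J_B : 𝓜.J [.B] = 𝓜.I [-1] := by
  simp [J, E, 𝓜.I_one]

theorem J_O : 𝓜.J [.O] = 0 := by
  simp [J, E, 𝓜.I_zero]

theorem J_nil : 𝓜.J [] = 1 := 𝓜.I_nil

/-- the induction step for words -/
theorem UR_J {W : List T} (h1 : 𝓜.D 1 (𝓜.J W) = 0)
    (h : ∀ r, Odd r → 3 ≤ r → r ≤ W.length → 𝓜.UR (𝓜.D r (𝓜.J W))) : 𝓜.UR (𝓜.J W) := by
  refine UR.intro h1 fun r hr h3 => ?_
  rcases Nat.lt_or_ge W.length r with hlt | hge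
  · rw [𝓜.D_low r _ _ hr (𝓜.J_mem W) hlt]
    exact UR.zero
  · exact h r hr h3 hge

theorem UR.scalar {c : 𝓜.H} (hc : c ∈ 𝓜.gr 0) : 𝓜.UR c := by
  have := UR.cmul hc UR.one
  rwa [mul_one] at this

theorem ur_A0 : 𝓜.UR (𝓜.J [.A, .O]) := by
  refine UR_J ?_ ?_
  · rw [𝓜.D_J 1 odd_one]
    simp [Finset.sum_range_succ, R, L, odd, J_A, J_O]
  · intro r hr h3 h
    simp at h
    omega

theorem ur_BB0 : 𝓜.UR (𝓜.J [.B, .B, .O]) := by
  refine UR_J ?_ ?_
  · rw [𝓜.D_J 1 odd_one]
    simp [Finset.sum_range_succ, R, L, odd, J_B, J_O]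
  · intro r hr h3 h
    simp at h
    obtain rfl : r = 3 := by obtain ⟨k, rfl⟩ := hr; omega
    · exact UR.scalar (J_scalar hr _ rfl)

theorem ur_AA0 : 𝓜.UR (𝓜.J [.A, .A, .O]) := by
  refine UR_J ?_ ?_
  · rw [𝓜.D_J 1 odd_one]
    simp [Finset.sum_range_succ, R, L, odd, J_A, J_O]
  · intro r hr h3 h
    simp at h
    obtain rfl : r = 3 := by obtain ⟨k, rfl⟩ := hr; omega
    · exact UR.scalar (J_scalar hr _ rfl)

theorem ur_A0A0 : 𝓜.UR (𝓜.J [.A, .O, .A, .O]) := by
  refine UR_J ?_ ?_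
  · rw [𝓜.D_J 1 odd_one]
    simp [Finset.sum_range_succ, R, L, odd, J_A, J_O]
  · intro r hr h3 h
    simp at h
    obtain rfl : r = 3 := by obtain ⟨k, rfl⟩ := hr; omega
    · rw [𝓜.D_J _ hr]
      simp [Finset.sum_range_succ, R, L, odd]
      repeat' first
        | exact UR.zero
        | refine UR.cmul (J_scalar (by decide) _ rfl) ?_
        | refine UR.add ?_ ?_
        | refine UR.neg ?_
        | refine UR.sub ?_ ?_

theorem ur_A0A00 : 𝓜.UR (𝓜.J [.A, .O, .A, .O, .O]) := by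
  refine UR_J ?_ ?_
  · rw [𝓜.D_J 1 odd_one]
    simp [Finset.sum_range_succ, R, L, odd, J_A, J_O]
  · intro r hr h3 h
    simp at h
    obtain rfl | rfl : r = 3 ∨ r = 5 := by obtain ⟨k, rfl⟩ := hr; omega
    · rw [𝓜.D_J _ hr]
      simp [Finset.sum_range_succ, R, L, odd]
      repeat' first
        | exact UR.zero
        | exact ur_A0
        | refine UR.cmul (J_scalar (by decide) _ rfl) ?_
        | refine UR.add ?_ ?_
        | refine UR.neg ?_
        | refine UR.sub ?_ ?_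
    · exact UR.scalar (J_scalar hr _ rfl)

theorem ur_A0AA0 : 𝓜.UR (𝓜.J [.A, .O, .A, .A, .O]) := by
  refine UR_J ?_ ?_
  · rw [𝓜.D_J 1 odd_one]
    simp [Finset.sum_range_succ, R, L, odd, J_A, J_O]
  · intro r hr h3 h
    simp at h
    obtain rfl | rfl : r = 3 ∨ r = 5 := by obtain ⟨k, rfl⟩ := hr; omega
    · rw [𝓜.D_J _ hr]
      simp [Finset.sum_range_succ, R, L, odd]
      repeat' first
        | exact UR.zero
        | exact ur_A0
        | refine UR.cmul (J_scalar (by decide) _ rfl) ?_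
        | refine UR.add ?_ ?_
        | refine UR.neg ?_
        | refine UR.sub ?_ ?_
    · exact UR.scalar (J_scalar hr _ rfl)

theorem ur_A0BB0 : 𝓜.UR (𝓜.J [.A, .O, .B, .B, .O]) := by
  refine UR_J ?_ ?_
  · rw [𝓜.D_J 1 odd_one]
    simp [Finset.sum_range_succ, R, L, odd, J_A, J_B, J_O]
  · intro r hr h3 h
    simp at h
    obtain rfl | rfl : r = 3 ∨ r = 5 := by obtain ⟨k, rfl⟩ := hr; omega
    · rw [𝓜.D_J _ hr]
      simp [Finset.sum_range_succ, R, L, odd]
      repeat' first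
        | exact UR.zero
        | exact ur_A0
        | refine UR.cmul (J_scalar (by decide) _ rfl) ?_
        | refine UR.add ?_ ?_
        | refine UR.neg ?_
        | refine UR.sub ?_ ?_
    · exact UR.scalar (J_scalar hr _ rfl)

theorem ur_A0A0A0 : 𝓜.UR (𝓜.J [.A, .O, .A, .O, .A, .O]) := by
  refine UR_J ?_ ?_
  · rw [𝓜.D_J 1 odd_one]
    simp [Finset.sum_range_succ, R, L, odd, J_A, J_O]
  · intro r hr h3 h
    simp at h
    obtain rfl | rfl : r = 3 ∨ r = 5 := by obtain ⟨k, rfl⟩ := hr; omega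
    · rw [𝓜.D_J _ hr]
      simp [Finset.sum_range_succ, R, L, odd]
      repeat' first
        | exact UR.zero
        | exact ur_BB0
        | exact ur_AA0
        | refine UR.cmul (J_scalar (by decide) _ rfl) ?_
        | refine UR.add ?_ ?_
        | refine UR.neg ?_
        | refine UR.sub ?_ ?_
    · rw [𝓜.D_J _ hr]
      simp [Finset.sum_range_succ, R, L, odd]
      repeat' first
        | exact UR.zero
        | refine UR.cmul (J_scalar (by decide) _ rfl) ?_
        | refine UR.add ?_ ?_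
        | refine UR.neg ?_
        | refine UR.sub ?_ ?_

theorem ur_AA0BB0 : 𝓜.UR (𝓜.J [.A, .A, .O, .B, .B, .O]) := by
  refine UR_J ?_ ?_
  · rw [𝓜.D_J 1 odd_one]
    simp [Finset.sum_range_succ, R, L, odd, J_A, J_B, J_O]
  · intro r hr h3 h
    simp at h
    obtain rfl | rfl : r = 3 ∨ r = 5 := by obtain ⟨k, rfl⟩ := hr; omega
    · rw [𝓜.D_J _ hr]
      simp [Finset.sum_range_succ, R, L, odd]
      repeat' first
        | exact UR.zero
        | exact ur_BB0
        | exact ur_AA0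
        | refine UR.cmul (J_scalar (by decide) _ rfl) ?_
        | refine UR.add ?_ ?_
        | refine UR.neg ?_
        | refine UR.sub ?_ ?_
    · rw [𝓜.D_J _ hr]
      simp [Finset.sum_range_succ, R, L, odd]
      repeat' first
        | exact UR.zero
        | refine UR.cmul (J_scalar (by decide) _ rfl) ?_
        | refine UR.add ?_ ?_
        | refine UR.neg ?_
        | refine UR.sub ?_ ?_

theorem ur_A0A00AA0 : 𝓜.UR (𝓜.J [.A, .O, .A, .O, .O, .A, .A, .O]) := by
  refine UR_J ?_ ?_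
  · rw [𝓜.D_J 1 odd_one]
    simp [Finset.sum_range_succ, R, L, odd, J_A, J_O]
  · intro r hr h3 h
    simp at h
    obtain rfl | rfl | rfl : r = 3 ∨ r = 5 ∨ r = 7 := by obtain ⟨k, rfl⟩ := hr; omega
    · rw [𝓜.D_J _ hr]
      simp [Finset.sum_range_succ, R, L, odd]
      repeat' first
        | exact UR.zero
        | exact ur_A0A00
        | exact ur_A0AA0
        | exact ur_A0BB0
        | refine UR.cmul (J_scalar (by decide) _ rfl) ?_
        | refine UR.add ?_ ?_
        | refine UR.neg ?_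
        | refine UR.sub ?_ ?_
    · rw [𝓜.D_J _ hr]
      simp [Finset.sum_range_succ, R, L, odd]
      repeat' first
        | exact UR.zero
        | exact ur_BB0
        | exact ur_AA0
        | refine UR.cmul (J_scalar (by decide) _ rfl) ?_
        | refine UR.add ?_ ?_
        | refine UR.neg ?_
        | refine UR.sub ?_ ?_
    · rw [𝓜.D_J _ hr]
      simp [Finset.sum_range_succ, R, L, odd]
      repeat' first
        | exact UR.zero
        | refine UR.cmul (J_scalar (by decide) _ rfl) ?_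
        | refine UR.add ?_ ?_
        | refine UR.neg ?_
        | refine UR.sub ?_ ?_

theorem ur_A0A00BB0 : 𝓜.UR (𝓜.J [.A, .O, .A, .O, .O, .B, .B, .O]) := by
  refine UR_J ?_ ?_
  · rw [𝓜.D_J 1 odd_one]
    simp [Finset.sum_range_succ, R, L, odd, J_A, J_B, J_O]
  · intro r hr h3 h
    simp at h
    obtain rfl | rfl | rfl : r = 3 ∨ r = 5 ∨ r = 7 := by obtain ⟨k, rfl⟩ := hr; omega
    · rw [𝓜.D_J _ hr]
      simp [Finset.sum_range_succ, R, L, odd]
      repeat' first
        | exact UR.zero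
        | exact ur_A0A00
        | exact ur_A0AA0
        | exact ur_A0BB0
        | refine UR.cmul (J_scalar (by decide) _ rfl) ?_
        | refine UR.add ?_ ?_
        | refine UR.neg ?_
        | refine UR.sub ?_ ?_
    · rw [𝓜.D_J _ hr]
      simp [Finset.sum_range_succ, R, L, odd]
      repeat' first
        | exact UR.zero
        | exact ur_BB0
        | exact ur_AA0
        | refine UR.cmul (J_scalar (by decide) _ rfl) ?_
        | refine UR.add ?_ ?_
        | refine UR.neg ?_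
        | refine UR.sub ?_ ?_
    · rw [𝓜.D_J _ hr]
      simp [Finset.sum_range_succ, R, L, odd]
      repeat' first
        | exact UR.zero
        | refine UR.cmul (J_scalar (by decide) _ rfl) ?_
        | refine UR.add ?_ ?_
        | refine UR.neg ?_
        | refine UR.sub ?_ ?_

theorem ur_A0AA0BB0 : 𝓜.UR (𝓜.J [.A, .O, .A, .A, .O, .B, .B, .O]) := by
  refine UR_J ?_ ?_
  · rw [𝓜.D_J 1 odd_one]
    simp [Finset.sum_range_succ, R, L, odd, J_A, J_B, J_O]
  · intro r hr h3 h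
    simp at h
    obtain rfl | rfl | rfl : r = 3 ∨ r = 5 ∨ r = 7 := by obtain ⟨k, rfl⟩ := hr; omega
    · rw [𝓜.D_J _ hr]
      simp [Finset.sum_range_succ, R, L, odd]
      repeat' first
        | exact UR.zero
        | exact ur_A0A00
        | exact ur_A0AA0
        | exact ur_A0BB0
        | refine UR.cmul (J_scalar (by decide) _ rfl) ?_
        | refine UR.add ?_ ?_
        | refine UR.neg ?_
        | refine UR.sub ?_ ?_
    · rw [𝓜.D_J _ hr]
      simp [Finset.sum_range_succ, R, L, odd]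
      repeat' first
        | exact UR.zero
        | exact ur_BB0
        | exact ur_AA0
        | refine UR.cmul (J_scalar (by decide) _ rfl) ?_
        | refine UR.add ?_ ?_
        | refine UR.neg ?_
        | refine UR.sub ?_ ?_
    · rw [𝓜.D_J _ hr]
      simp [Finset.sum_range_succ, R, L, odd]
      repeat' first
        | exact UR.zero
        | refine UR.cmul (J_scalar (by decide) _ rfl) ?_
        | refine UR.add ?_ ?_
        | refine UR.neg ?_
        | refine UR.sub ?_ ?_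

theorem ur_A0A00AA0BB0 : 𝓜.UR (𝓜.J [.A, .O, .A, .O, .O, .A, .A, .O, .B, .B, .O]) := by
  refine UR_J ?_ ?_
  · rw [𝓜.D_J 1 odd_one]
    simp [Finset.sum_range_succ, R, L, odd, J_A, J_B, J_O]
  · intro r hr h3 h
    simp at h
    obtain rfl | rfl | rfl | rfl | rfl : r = 3 ∨ r = 5 ∨ r = 7 ∨ r = 9 ∨ r = 11 := by obtain ⟨k, rfl⟩ := hr; omega
    · rw [𝓜.D_J _ hr]
      simp [Finset.sum_range_succ, R, L, odd]
      repeat' first
        | exact UR.zero
        | exact ur_A0A00AA0
        | exact ur_A0A00BB0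
        | exact ur_A0AA0BB0
        | refine UR.cmul (J_scalar (by decide) _ rfl) ?_
        | refine UR.add ?_ ?_
        | refine UR.neg ?_
        | refine UR.sub ?_ ?_
    · rw [𝓜.D_J _ hr]
      simp [Finset.sum_range_succ, R, L, odd]
      repeat' first
        | exact UR.zero
        | exact ur_A0A0A0
        | exact ur_AA0BB0
        | refine UR.cmul (J_scalar (by decide) _ rfl) ?_
        | refine UR.add ?_ ?_
        | refine UR.neg ?_
        | refine UR.sub ?_ ?_
    · rw [𝓜.D_J _ hr]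
      simp [Finset.sum_range_succ, R, L, odd]
      repeat' first
        | exact UR.zero
        | exact ur_A0A0
        | refine UR.cmul (J_scalar (by decide) _ rfl) ?_
        | refine UR.add ?_ ?_
        | refine UR.neg ?_
        | refine UR.sub ?_ ?_
    · rw [𝓜.D_J _ hr]
      simp [Finset.sum_range_succ, R, L, odd]
      repeat' first
        | exact UR.zero
        | exact ur_A0
        | refine UR.cmul (J_scalar (by decide) _ rfl) ?_
        | refine UR.add ?_ ?_
        | refine UR.neg ?_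
        | refine UR.sub ?_ ?_
    · exact UR.scalar (J_scalar hr _ rfl)

theorem mmv_eq : 𝓜.mmv [2, 3, 1, 2, 1, 2] [1, 1, 1, 1, -1, 1] =
    𝓜.J [.A, .O, .A, .O, .O, .A, .A, .O, .B, .B, .O] := by
  have h6 : (-1 : 𝓜.H) ^ 6 = 1 := by norm_num
  simp [mmv, signVectors, coefficient, eulerSum, word, J, E, h6]
  abel

/-! ### Words in `0`, `1` -/

theorem endVal_zero' (d : 𝓜.H → 𝓜.H) (S : Word) : endVal d 𝓜.I S 0 = 0 := rfl

theorem endVal_one' (d : 𝓜.H → 𝓜.H) (S : Word) : endVal d 𝓜.I S 1 = d (𝓜.I S) := rfl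

/-- all letters are `0` or `1` -/
def Bin (w : Word) : Prop := ∀ a ∈ w, a = 0 ∨ a = 1

theorem UR.sum {ι : Type} (s : Finset ι) (f : ι → 𝓜.H) (h : ∀ i ∈ s, 𝓜.UR (f i)) :
    𝓜.UR (∑ i ∈ s, f i) := by
  classical
  induction s using Finset.induction_on with
  | empty => exact UR.zero
  | insert a s ha ih =>
    rw [Finset.sum_insert ha]
    exact (h a (Finset.mem_insert_self a s)).add
      (ih fun i hi => h i (Finset.mem_insert_of_mem hi))

theorem endVal_mem {r : ℕ} (hr : Odd r) {S : Word} (hS : S.length = r) {e : SignType}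
    (he : e = 0 ∨ e = 1) : endVal (𝓜.D r) 𝓜.I S e ∈ 𝓜.gr 0 := by
  rcases he with rfl | rfl
  · exact Submodule.zero_mem _
  · refine 𝓜.D_mem r 0 _ hr ?_
    rw [zero_add, ← hS]
    exact 𝓜.I_mem S

theorem endVal_D1 {S : Word} (hS : S.length = 1) (hb : Bin S) {e : SignType}
    (he : e = 0 ∨ e = 1) : endVal (𝓜.D 1) 𝓜.I S e = 0 := by
  obtain ⟨a, rfl⟩ := List.length_eq_one_iff.1 hS
  rcases he with rfl | rfl
  · rfl
  · rw [endVal_one']
    rcases hb a (by simp) with rfl | rfl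
    · rw [𝓜.I_zero, map_zero]
    · rw [𝓜.I_one, map_zero]

theorem headD_bin {w : Word} (h : Bin w) : w.headD 1 = 0 ∨ w.headD 1 = 1 := by
  cases w with
  | nil => right; rfl
  | cons a w => exact h a (by simp)

theorem getLastD_bin {w : Word} (h : Bin w) : w.getLastD 0 = 0 ∨ w.getLastD 0 = 1 := by
  rcases List.eq_nil_or_concat w with rfl | ⟨u, a, rfl⟩
  · left; rfl
  · have : (u.concat a).getLastD 0 = a := by simp
    rw [this]
    exact h a (by simp)

theorem UR_I (n : ℕ) : ∀ w : Word, w.length = n → Bin w → 𝓜.UR (𝓜.I w) := by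
  induction n using Nat.strong_induction_on with
  | _ n ih =>
    intro w hn hb
    have hb1 : ∀ p, Bin (w.take p) := fun p a ha => hb a (List.mem_of_mem_take ha)
    have hb2 : ∀ p, Bin (w.drop p) := fun p a ha => hb a (List.mem_of_mem_drop ha)
    have hb3 : ∀ p r, Bin ((w.drop p).take r) := fun p r a ha =>
      hb2 p a (List.mem_of_mem_take ha)
    have hlen : ∀ p r, p + r ≤ w.length → ((w.drop p).take r).length = r := by
      intro p r h
      rw [List.length_take, List.length_drop]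
      omega
    refine UR.intro ?_ ?_
    · rw [𝓜.D_I 1 w odd_one]
      refine Finset.sum_eq_zero fun p hp => ?_
      rw [Finset.mem_range] at hp
      rw [endVal_D1 (hlen p 1 (by omega)) (hb3 p 1) (headD_bin (hb2 _)),
        endVal_D1 (hlen p 1 (by omega)) (hb3 p 1) (getLastD_bin (hb1 _)), sub_zero, zero_mul]
    · intro r hr h3
      rw [𝓜.D_I r w hr]
      refine UR.sum _ _ fun p hp => ?_
      rw [Finset.mem_range] at hp
      refine UR.cmul (Submodule.sub_mem _ (endVal_mem hr (hlen p r (by omega)) (headD_bin (hb2 _)))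
        (endVal_mem hr (hlen p r (by omega)) (getLastD_bin (hb1 _)))) ?_
      refine ih _ ?_ _ rfl ?_
      · rw [List.length_append, List.length_take, List.length_drop]
        omega
      · intro a ha
        rcases List.mem_append.1 ha with ha | ha
        · exact hb1 _ a ha
        · exact hb2 _ a ha

theorem shuffles_zero (k : ℕ) : ∀ f : Word → 𝓜.H,
    ((shuffles [0] (List.replicate k 0)).map f).sum = ((k : 𝓜.H) + 1) *
      f (List.replicate (k + 1) 0) := by
  induction k with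
  | zero => intro f; simp [shuffles]
  | succ k ih =>
    intro f
    rw [List.replicate_succ, shuffles, List.map_append, List.sum_append, List.map_map,
      List.map_map, shuffles]
    have h := ih (f ∘ fun w => 0 :: w)
    rw [h]
    simp only [List.map_cons, List.map_nil, List.sum_cons, List.sum_nil, Function.comp,
      List.replicate_succ]
    push_cast
    ring

theorem I_zeros (k : ℕ) : 𝓜.I (List.replicate (k + 1) 0) = 0 := by
  have h := 𝓜.I_mul [0] (List.replicate k 0)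
  rw [𝓜.I_zero, zero_mul, shuffles_zero] at h
  have h2 : ((k : 𝓜.H) + 1) = algebraMap ℚ 𝓜.H (k + 1) := by simp
  rw [h2] at h
  have h3 : (((k : ℚ) + 1)⁻¹ : ℚ) • (algebraMap ℚ 𝓜.H (k + 1) *
      𝓜.I (List.replicate (k + 1) 0)) = 0 := by rw [← h, smul_zero]
  rw [← Algebra.smul_def, smul_smul, inv_mul_cancel₀ (by positivity), one_smul] at h3
  exact h3

theorem I001 : 𝓜.I [0, 0, 1] = 𝓜.I [1, 0, 0] := by
  have h1 := 𝓜.I_mul [0] [0, 1]
  have h2 := 𝓜.I_mul [0] [1, 0]
  simp [shuffles, 𝓜.I_zero] at h1 h2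
  have h3 : (2 : ℚ) • 𝓜.I [0, 0, 1] = (2 : ℚ) • 𝓜.I [1, 0, 0] := by
    rw [two_smul, two_smul]
    linear_combination h2 - h1
  exact smul_right_injective _ (two_ne_zero) h3

theorem I00100 : 𝓜.I [0, 0, 1, 0, 0] = 6 * 𝓜.I [1, 0, 0, 0, 0] := by
  have h1 := 𝓜.I_mul [0] [0, 1, 0, 0]
  have h2 := 𝓜.I_mul [0] [1, 0, 0, 0]
  simp [shuffles, 𝓜.I_zero] at h1 h2
  have h3 : (2 : ℚ) • 𝓜.I [0, 0, 1, 0, 0] = (2 : ℚ) • (6 * 𝓜.I [1, 0, 0, 0, 0]) := by
    rw [two_smul, two_smul]
    linear_combination 3 * h2 - h1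
  exact smul_right_injective _ (two_ne_zero) h3

theorem D3_100 : 𝓜.D 3 (𝓜.I [1, 0, 0]) = -1 := by
  have h := 𝓜.D_zeta 3 (by decide) le_rfl
  simp at h
  linear_combination -h

theorem D5_10000 : 𝓜.D 5 (𝓜.I [1, 0, 0, 0, 0]) = -1 := by
  have h := 𝓜.D_zeta 5 (by decide) (by norm_num)
  simp [List.replicate] at h
  linear_combination -h

theorem D5_00100 : 𝓜.D 5 (𝓜.I [0, 0, 1, 0, 0]) = -6 := by
  rw [I00100]
  have h : (6 : 𝓜.H) * 𝓜.I [1, 0, 0, 0, 0] = (6 : ℚ) • 𝓜.I [1, 0, 0, 0, 0] := by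
    rw [Algebra.smul_def, map_ofNat]
  rw [h, map_smul, D5_10000, Algebra.smul_def, map_ofNat]
  ring

theorem D3_X8 : 𝓜.D 3 (𝓜.I [1, 0, 0, 1, 0, 0, 0, 0]) = 0 := by
  rw [𝓜.D_I 3 _ (by decide)]
  have h0 := I_zeros (𝓜 := 𝓜) 2
  simp [List.replicate] at h0
  simp [Finset.sum_range_succ, endVal_zero', endVal_one', D3_100, I001, h0]

theorem D5_X8 : 𝓜.D 5 (𝓜.I [1, 0, 0, 1, 0, 0, 0, 0]) = 5 * 𝓜.I [1, 0, 0] := by
  rw [𝓜.D_I 5 _ (by decide)]
  simp [Finset.sum_range_succ, endVal_zero', endVal_one', D5_10000, D5_00100]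
  ring

theorem D3_T : 𝓜.D 3 (𝓜.I [1, 0, 0, 1, 0, 0, 1, 0, 0, 0, 0]) = 0 := by
  rw [𝓜.D_I 3 _ (by decide)]
  have h0 := I_zeros (𝓜 := 𝓜) 2
  simp [List.replicate] at h0
  simp [Finset.sum_range_succ, endVal_zero', endVal_one', D3_100, I001, h0]

theorem D5_T : 𝓜.D 5 (𝓜.I [1, 0, 0, 1, 0, 0, 1, 0, 0, 0, 0]) =
    5 * 𝓜.I [1, 0, 0, 1, 0, 0] := by
  rw [𝓜.D_I 5 _ (by decide)]
  simp [Finset.sum_range_succ, endVal_zero', endVal_one', D5_10000, D5_00100]
  ring

theorem D3_Y6 : 𝓜.D 3 (𝓜.I [1, 0, 0, 1, 0, 0]) = -𝓜.I [1, 0, 0] := by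
  rw [𝓜.D_I 3 _ (by decide)]
  simp [Finset.sum_range_succ, endVal_zero', endVal_one', D3_100, I001]

/-! ### Single zeta values -/

variable (𝓜) in
/-- the motivic zeta value `ζ(r)` -/
def z (r : ℕ) : 𝓜.H := -𝓜.I (1 :: List.replicate (r - 1) 0)

theorem z_mem {r : ℕ} (hr : 1 ≤ r) : 𝓜.z r ∈ 𝓜.gr r := by
  have h := 𝓜.I_mem (1 :: List.replicate (r - 1) 0)
  rw [List.length_cons, List.length_replicate, Nat.sub_add_cancel hr] at h
  exact Submodule.neg_mem _ h

theorem z_ur (r : ℕ) : 𝓜.UR (𝓜.z r) := by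
  refine UR.neg (UR_I _ _ rfl fun a ha => ?_)
  rcases List.mem_cons.1 ha with rfl | ha
  · right; rfl
  · left; exact List.eq_of_mem_replicate ha

theorem D_z_self {r : ℕ} (hr : Odd r) (h3 : 3 ≤ r) : 𝓜.D r (𝓜.z r) = 1 := 𝓜.D_zeta r hr h3

theorem D_z_low {r s : ℕ} (hr : 1 ≤ r) (hs : Odd s) (h : r < s) : 𝓜.D s (𝓜.z r) = 0 :=
  𝓜.D_low s r _ hs (z_mem hr) h

theorem D_z_high {r s : ℕ} (hs : Odd s) (h : s < r) : 𝓜.D s (𝓜.z r) = 0 := by
  rw [z, map_neg, 𝓜.D_I s _ hs, neg_eq_zero]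
  refine Finset.sum_eq_zero fun p hp => ?_
  rw [Finset.mem_range, List.length_cons, List.length_replicate] at hp
  have hs1 : 1 ≤ s := hs.pos
  rcases Nat.eq_zero_or_pos p with rfl | hp0
  · have e1 : ((1 :: List.replicate (r - 1) (0 : SignType)).drop (0 + s)).headD 1 = 0 := by
      obtain ⟨t, rfl⟩ := Nat.exists_eq_add_of_le hs1
      rw [zero_add, add_comm 1 t, List.drop_succ_cons, List.drop_replicate]
      obtain ⟨m, hm⟩ := Nat.exists_eq_add_of_lt h
      rw [show r - 1 - t = m + 1 by omega, List.replicate_succ]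
      rfl
    have e2 : ((1 :: List.replicate (r - 1) (0 : SignType)).take 0).getLastD 0 = 0 := rfl
    rw [e1, e2, sub_self, zero_mul]
  · have e3 : (((1 :: List.replicate (r - 1) (0 : SignType)).drop p).take s) =
        List.replicate ((s - 1) + 1) 0 := by
      obtain ⟨q, rfl⟩ := Nat.exists_eq_add_of_le hp0
      rw [add_comm 1 q, List.drop_succ_cons, List.drop_replicate, List.take_replicate]
      congr 1
      omega
    have e4 : ∀ e : SignType, endVal (𝓜.D s) 𝓜.I (List.replicate ((s - 1) + 1) 0) e = 0 := by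
      intro e
      cases e with
      | zero => rfl
      | pos =>
        change 𝓜.D s (𝓜.I _) = 0
        rw [I_zeros, map_zero]
      | neg =>
        change 𝓜.D s (𝓜.I (List.map _ _)) = 0
        rw [List.map_replicate]
        have : -(0 : SignType) = 0 := rfl
        rw [this, I_zeros, map_zero]
    rw [e3, e4, e4, sub_self, zero_mul]

/-! ### The kernel -/

theorem ker_odd {n : ℕ} (hn : Odd n) {x : 𝓜.H} (hx : x ∈ 𝓜.gr n)
    (h : ∀ r, Odd r → r ≤ n → 𝓜.D r x = 0) : x = 0 := by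
  have h1 := 𝓜.kernel n x hx fun r hr => by
    rcases Nat.lt_or_ge n r with hlt | hge
    · exact 𝓜.D_low r n x hr hx hlt
    · exact h r hr hge
  have h2 : {z : 𝓜.H | ∃ k : ℕ, 2 * k = n ∧ z = (-𝓜.I [1, 0]) ^ k} = ∅ := by
    ext z
    simp only [Set.mem_ofPred_eq, Set.mem_empty_iff_false, iff_false, not_exists, not_and]
    intro k hk
    obtain ⟨m, rfl⟩ := hn
    omega
  rw [h2, Submodule.span_empty, Submodule.mem_bot] at h1
  exact h1

theorem ker_even (k : ℕ) {x : 𝓜.H} (hx : x ∈ 𝓜.gr (2 * k))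
    (h : ∀ r, Odd r → r ≤ 2 * k → 𝓜.D r x = 0) : ∃ q : ℚ, x = q • 𝓜.z 2 ^ k := by
  have h1 := 𝓜.kernel (2 * k) x hx fun r hr => by
    rcases Nat.lt_or_ge (2 * k) r with hlt | hge
    · exact 𝓜.D_low r _ x hr hx hlt
    · exact h r hr hge
  have h2 : {z : 𝓜.H | ∃ j : ℕ, 2 * j = 2 * k ∧ z = (-𝓜.I [1, 0]) ^ j} = {𝓜.z 2 ^ k} := by
    ext z
    simp only [Set.mem_ofPred_eq, Set.mem_singleton_iff]
    constructor
    · rintro ⟨j, hj, rfl⟩
      obtain rfl : j = k := by omega
      rfl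
    · rintro rfl
      exact ⟨k, rfl, rfl⟩
  rw [h2, Submodule.mem_span_singleton] at h1
  obtain ⟨q, rfl⟩ := h1
  exact ⟨q, rfl⟩

theorem gr0 {x : 𝓜.H} (hx : x ∈ 𝓜.gr 0) : ∃ q : ℚ, x = q • (1 : 𝓜.H) := by
  rw [𝓜.gr_zero, Submodule.mem_span_singleton] at hx
  obtain ⟨q, rfl⟩ := hx
  exact ⟨q, rfl⟩

theorem D_z2 {r : ℕ} (hr : Odd r) : 𝓜.D r (𝓜.z 2) = 0 := by
  rcases Nat.lt_or_ge r 2 with h | h
  · exact D_z_high hr h
  · exact D_z_low (by norm_num) hr (by obtain ⟨k, rfl⟩ := hr; omega)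

theorem D_z2_pow {r : ℕ} (hr : Odd r) (k : ℕ) : 𝓜.D r (𝓜.z 2 ^ k) = 0 := by
  induction k with
  | zero =>
    rw [pow_zero]
    refine 𝓜.D_low r 0 1 hr ?_ hr.pos
    rw [𝓜.gr_zero]; exact Submodule.subset_span rfl
  | succ k ih => rw [pow_succ, 𝓜.D_mul _ _ _ hr, ih, D_z2 hr, zero_mul, mul_zero, add_zero]

theorem ur1 {x : 𝓜.H} (hx : x ∈ 𝓜.gr 1) (h : 𝓜.UR x) : x = 0 := by
  refine ker_odd odd_one hx fun r hr h1 => ?_
  obtain rfl : r = 1 := by have := hr.pos; omega
  exact h.one'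

theorem ur2 {x : 𝓜.H} (hx : x ∈ 𝓜.gr 2) (h : 𝓜.UR x) : ∃ q : ℚ, x = q • 𝓜.z 2 := by
  obtain ⟨q, hq⟩ := ker_even 1 hx fun r hr h1 => by
    obtain rfl : r = 1 := by obtain ⟨k, rfl⟩ := hr; omega
    exact h.one'
  exact ⟨q, by rw [hq, pow_one]⟩

theorem ur3 {x : 𝓜.H} (hx : x ∈ 𝓜.gr 3) (h : 𝓜.UR x) : ∃ q : ℚ, x = q • 𝓜.z 3 := by
  obtain ⟨q, hq⟩ := gr0 (𝓜.D_mem 3 0 x (by decide) hx)
  refine ⟨q, ?_⟩
  rw [← sub_eq_zero]
  refine ker_odd (n := 3) (by decide)
    (Submodule.sub_mem _ hx (Submodule.smul_mem _ _ (z_mem (by norm_num)))) fun r hr h1 => ?_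
  obtain rfl | rfl : r = 1 ∨ r = 3 := by obtain ⟨k, rfl⟩ := hr; omega
  · rw [map_sub, map_smul, h.one', (z_ur 3).one', smul_zero, sub_zero]
  · rw [map_sub, map_smul, hq, D_z_self (by decide) le_rfl, sub_self]

theorem ur4 {x : 𝓜.H} (hx : x ∈ 𝓜.gr 4) (h : 𝓜.UR x) : ∃ q : ℚ, x = q • 𝓜.z 2 ^ 2 := by
  refine ker_even 2 hx fun r hr h1 => ?_
  obtain rfl | rfl : r = 1 ∨ r = 3 := by obtain ⟨k, rfl⟩ := hr; omega
  · exact h.one'
  · exact ur1 (𝓜.D_mem 3 1 x (by decide) hx) (h.D (by decide) le_rfl)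

theorem ur5 {x : 𝓜.H} (hx : x ∈ 𝓜.gr 5) (h : 𝓜.UR x) :
    ∃ a b : ℚ, x = a • (𝓜.z 3 * 𝓜.z 2) + b • 𝓜.z 5 := by
  obtain ⟨b, hb⟩ := gr0 (𝓜.D_mem 5 0 x (by decide) hx)
  obtain ⟨a, ha⟩ := ur2 (𝓜.D_mem 3 2 x (by decide) hx) (h.D (by decide) le_rfl)
  refine ⟨a, b, ?_⟩
  rw [← sub_eq_zero]
  have m32 := 𝓜.mul_mem 3 2 _ _ (z_mem (𝓜 := 𝓜) (r := 3) (by norm_num)) (z_mem (r := 2) (by norm_num))
  refine ker_odd (n := 5) (by decide) (Submodule.sub_mem _ hx (Submodule.add_mem _
    (Submodule.smul_mem _ _ m32) (Submodule.smul_mem _ _ (z_mem (by norm_num))))) fun r hr h1 => ?_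
  obtain rfl | rfl | rfl : r = 1 ∨ r = 3 ∨ r = 5 := by obtain ⟨k, rfl⟩ := hr; omega
  · rw [map_sub, map_add, map_smul, map_smul, h.one', 𝓜.D_mul _ _ _ odd_one, (z_ur 3).one',
      (z_ur 2).one', (z_ur 5).one']
    simp
  · rw [map_sub, map_add, map_smul, map_smul, ha, 𝓜.D_mul _ _ _ hr, D_z_self hr le_rfl,
      D_z2 hr, D_z_high hr (by norm_num)]
    simp
  · rw [map_sub, map_add, map_smul, map_smul, hb, 𝓜.D_mul _ _ _ hr, D_z_self hr (by norm_num),
      D_z2 hr, D_z_low (by norm_num) hr (by norm_num)]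
    simp

theorem ur6 {x : 𝓜.H} (hx : x ∈ 𝓜.gr 6) (h : 𝓜.UR x) :
    ∃ a b : ℚ, 𝓜.D 3 x = (2 * a) • 𝓜.z 3 ∧ x = a • (𝓜.z 3 * 𝓜.z 3) + b • 𝓜.z 2 ^ 3 := by
  obtain ⟨a, ha⟩ := ur3 (𝓜.D_mem 3 3 x (by decide) hx) (h.D (by decide) le_rfl)
  have m33 := 𝓜.mul_mem 3 3 _ _ (z_mem (𝓜 := 𝓜) (r := 3) (by norm_num)) (z_mem (r := 3) (by norm_num))
  obtain ⟨b, hb⟩ := ker_even 3 (x := x - (a / 2) • (𝓜.z 3 * 𝓜.z 3))
    (Submodule.sub_mem _ hx (Submodule.smul_mem _ _ m33)) fun r hr h1 => by
      obtain rfl | rfl | rfl : r = 1 ∨ r = 3 ∨ r = 5 := by obtain ⟨k, rfl⟩ := hr; omega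
      · rw [map_sub, map_smul, h.one', 𝓜.D_mul _ _ _ hr, (z_ur 3).one']
        simp
      · rw [map_sub, map_smul, ha, 𝓜.D_mul _ _ _ hr, D_z_self hr le_rfl, one_mul, mul_one,
          smul_add, ← add_smul, add_halves, sub_self]
      · rw [map_sub, map_smul, 𝓜.D_mul _ _ _ hr, D_z_low (by norm_num) hr (by norm_num),
          ur1 (𝓜.D_mem 5 1 x (by decide) hx) (h.D (by decide) (by norm_num))]
        simp
  refine ⟨a / 2, b, ?_, ?_⟩
  · rw [ha]; congr 1; ring
  · rw [← hb]; abel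

theorem z_mul_mem {m n : ℕ} {x y : 𝓜.H} (hx : x ∈ 𝓜.gr m) (hy : y ∈ 𝓜.gr n) {k : ℕ}
    (h : m + n = k) : x * y ∈ 𝓜.gr k := h ▸ 𝓜.mul_mem m n x y hx hy

theorem z2_pow_mem (k : ℕ) : 𝓜.z 2 ^ k ∈ 𝓜.gr (2 * k) := by
  induction k with
  | zero =>
    rw [pow_zero, mul_zero, 𝓜.gr_zero]
    exact Submodule.subset_span rfl
  | succ k ih =>
    rw [pow_succ]
    exact z_mul_mem ih (z_mem (by norm_num)) (by ring)

variable (𝓜) in
/-- a double zeta value of weight eight -/
def X : 𝓜.H := 𝓜.I [1, 0, 0, 1, 0, 0, 0, 0]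

variable (𝓜) in
/-- a triple zeta value of weight eleven -/
def Y : 𝓜.H := 𝓜.I [1, 0, 0, 1, 0, 0, 1, 0, 0, 0, 0]

theorem X_mem : 𝓜.X ∈ 𝓜.gr 8 := 𝓜.I_mem [1, 0, 0, 1, 0, 0, 0, 0]

theorem Y_mem : 𝓜.Y ∈ 𝓜.gr 11 := 𝓜.I_mem [1, 0, 0, 1, 0, 0, 1, 0, 0, 0, 0]

theorem bin_of {w : Word} (h : w.all (fun a => a == 0 || a == 1) = true) : Bin w := by
  intro a ha
  have := List.all_eq_true.1 h a ha
  simpa using this

theorem X_ur : 𝓜.UR 𝓜.X := UR_I _ _ rfl (bin_of (by decide))

theorem Y_ur : 𝓜.UR 𝓜.Y := UR_I _ _ rfl (bin_of (by decide))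

theorem z3_eq : 𝓜.z 3 = -𝓜.I [1, 0, 0] := rfl

theorem D3_X : 𝓜.D 3 𝓜.X = 0 := D3_X8

theorem D5_X : 𝓜.D 5 𝓜.X = (-5 : ℚ) • 𝓜.z 3 := by
  rw [X, D5_X8, z3_eq, Algebra.smul_def, map_neg, map_ofNat]
  ring

theorem D3_Y : 𝓜.D 3 𝓜.Y = 0 := D3_T

/-- the weight six part -/
theorem Y6_form : ∃ q : ℚ, 𝓜.I [1, 0, 0, 1, 0, 0] =
    (1 / 2 : ℚ) • (𝓜.z 3 * 𝓜.z 3) + q • 𝓜.z 2 ^ 3 := by
  obtain ⟨a, b, h1, h2⟩ := ur6 (𝓜.I_mem [1, 0, 0, 1, 0, 0]) (UR_I _ _ rfl (bin_of (by decide)))
  have h3 : (1 : ℚ) • 𝓜.z 3 = (2 * a) • 𝓜.z 3 := by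
    rw [← h1, D3_Y6, z3_eq, one_smul]
  have h4 : (1 : ℚ) • (1 : 𝓜.H) = (2 * a) • (1 : 𝓜.H) := by
    have := congrArg (𝓜.D 3) h3
    rw [map_smul, map_smul, D_z_self (by decide) le_rfl] at this
    exact this
  refine ⟨b, ?_⟩
  have h5 : (1 / 2 : ℚ) • (1 : 𝓜.H) = a • (1 : 𝓜.H) := by
    have := congrArg (fun y => (1 / 2 : ℚ) • y) h4
    simp only [smul_smul] at this
    rw [mul_one] at this
    rw [this]
    congr 1
    ring
  rw [h2]
  congr 1
  have e : ∀ (q : ℚ) (y : 𝓜.H), q • y = (q • (1 : 𝓜.H)) * y := fun q y => by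
    rw [smul_mul_assoc, one_mul]
  rw [e a, e (1 / 2), h5]

theorem D5_Y : ∃ q : ℚ, 𝓜.D 5 𝓜.Y = (5 / 2 : ℚ) • (𝓜.z 3 * 𝓜.z 3) + q • 𝓜.z 2 ^ 3 := by
  obtain ⟨q, hq⟩ := Y6_form (𝓜 := 𝓜)
  refine ⟨5 * q, ?_⟩
  have h5 : (5 : 𝓜.H) = (5 : ℚ) • (1 : 𝓜.H) := by
    rw [Algebra.smul_def, map_ofNat, mul_one]
  rw [Y, D5_T, hq, h5, smul_mul_assoc, one_mul]
  module

theorem ur8 {x : 𝓜.H} (hx : x ∈ 𝓜.gr 8) (h : 𝓜.UR x) : ∃ a b c d : ℚ,
    x = a • (𝓜.z 3 * 𝓜.z 5) + b • 𝓜.X + c • (𝓜.z 3 * 𝓜.z 3 * 𝓜.z 2) + d • 𝓜.z 2 ^ 4 := by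
  obtain ⟨α, β, h3⟩ := ur5 (𝓜.D_mem 3 5 x (by decide) hx) (h.D (by decide) le_rfl)
  obtain ⟨γ, h5⟩ := ur3 (𝓜.D_mem 5 3 x (by decide) hx) (h.D (by decide) (by norm_num))
  have h7 := ur1 (𝓜.D_mem 7 1 x (by decide) hx) (h.D (by decide) (by norm_num))
  have X7 := ur1 (𝓜.D_mem 7 1 _ (by decide) (X_mem (𝓜 := 𝓜))) (X_ur.D (by decide) (by norm_num))
  have z3m := z_mem (𝓜 := 𝓜) (r := 3) (by norm_num)
  have z5m := z_mem (𝓜 := 𝓜) (r := 5) (by norm_num)
  have z2m := z_mem (𝓜 := 𝓜) (r := 2) (by norm_num)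
  obtain ⟨d, hd⟩ := ker_even 4 (x := x - β • (𝓜.z 3 * 𝓜.z 5) - ((β - γ) / 5) • 𝓜.X -
      (α / 2) • (𝓜.z 3 * 𝓜.z 3 * 𝓜.z 2))
    (Submodule.sub_mem _ (Submodule.sub_mem _ (Submodule.sub_mem _ hx
      (Submodule.smul_mem _ _ (z_mul_mem z3m z5m rfl))) (Submodule.smul_mem _ _ X_mem))
      (Submodule.smul_mem _ _ (z_mul_mem (z_mul_mem z3m z3m rfl) z2m rfl))) fun r hr h1 => by
      obtain rfl | rfl | rfl | rfl : r = 1 ∨ r = 3 ∨ r = 5 ∨ r = 7 := by
        obtain ⟨k, rfl⟩ := hr; omega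
      · simp only [map_sub, map_smul, h.one', 𝓜.D_mul _ _ _ hr, (z_ur 3).one', (z_ur 5).one',
          (z_ur 2).one', X_ur.one']
        simp
      · simp only [map_sub, map_smul, h3, 𝓜.D_mul _ _ _ hr, D_z_self hr le_rfl, D_z2 hr,
          D_z_high hr (show 3 < 5 by norm_num), D3_X, mul_zero, add_zero, one_mul, mul_one,
          add_mul, smul_zero, sub_zero]
        module
      · simp only [map_sub, map_smul, h5, 𝓜.D_mul _ _ _ hr, D_z_self hr (show 3 ≤ 5 by norm_num),
          D_z2 hr, D_z_low (show 1 ≤ 3 by norm_num) hr (show 3 < 5 by norm_num), D5_X, mul_zero,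
          add_zero, zero_add, one_mul, mul_one, zero_mul, smul_zero, sub_zero]
        module
      · simp only [map_sub, map_smul, h7, 𝓜.D_mul _ _ _ hr, X7, D_z2 hr,
          D_z_low (show 1 ≤ 3 by norm_num) hr (show 3 < 7 by norm_num),
          D_z_low (show 1 ≤ 5 by norm_num) hr (show 5 < 7 by norm_num), mul_zero,
          add_zero, zero_add, zero_mul, smul_zero, sub_zero]
  refine ⟨β, (β - γ) / 5, α / 2, d, ?_⟩
  rw [← hd]
  abel

theorem ur11 {x : 𝓜.H} (hx : x ∈ 𝓜.gr 11) (h : 𝓜.UR x) : ∃ a b c d e f g u v : ℚ,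
    x = a • (𝓜.z 3 * (𝓜.z 3 * 𝓜.z 5)) + b • (𝓜.z 3 * 𝓜.X) + c • 𝓜.Y +
      d • (𝓜.z 3 * 𝓜.z 3 * 𝓜.z 3 * 𝓜.z 2) + e • (𝓜.z 3 * 𝓜.z 2 ^ 4) +
      f • (𝓜.z 5 * 𝓜.z 2 ^ 3) + g • (𝓜.z 7 * 𝓜.z 2 ^ 2) + u • (𝓜.z 9 * 𝓜.z 2) + v • 𝓜.z 11 := by
  obtain ⟨a, b, c, d, h3⟩ := ur8 (𝓜.D_mem 3 8 x (by decide) hx) (h.D (by decide) le_rfl)
  obtain ⟨e, f, -, h5⟩ := ur6 (𝓜.D_mem 5 6 x (by decide) hx) (h.D (by decide) (by norm_num))
  obtain ⟨g, h7⟩ := ur4 (𝓜.D_mem 7 4 x (by decide) hx) (h.D (by decide) (by norm_num))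
  obtain ⟨u, h9⟩ := ur2 (𝓜.D_mem 9 2 x (by decide) hx) (h.D (by decide) (by norm_num))
  obtain ⟨v, h11⟩ := gr0 (𝓜.D_mem 11 0 x (by decide) hx)
  obtain ⟨q, Y5⟩ := D5_Y (𝓜 := 𝓜)
  obtain ⟨q7, Y7⟩ := ur4 (𝓜.D_mem 7 4 _ (by decide) (Y_mem (𝓜 := 𝓜)))
    (Y_ur.D (by decide) (by norm_num))
  obtain ⟨q9, Y9⟩ := ur2 (𝓜.D_mem 9 2 _ (by decide) (Y_mem (𝓜 := 𝓜)))
    (Y_ur.D (by decide) (by norm_num))
  obtain ⟨q11, Y11⟩ := gr0 (𝓜.D_mem 11 0 _ (by decide) (Y_mem (𝓜 := 𝓜)))
  have X7 := ur1 (𝓜.D_mem 7 1 _ (by decide) (X_mem (𝓜 := 𝓜))) (X_ur.D (by decide) (by norm_num))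
  have X9 : 𝓜.D 9 𝓜.X = 0 := 𝓜.D_low 9 8 _ (by decide) X_mem (by norm_num)
  have X11 : 𝓜.D 11 𝓜.X = 0 := 𝓜.D_low 11 8 _ (by decide) X_mem (by norm_num)
  have z3m := z_mem (𝓜 := 𝓜) (r := 3) (by norm_num)
  have z5m := z_mem (𝓜 := 𝓜) (r := 5) (by norm_num)
  have z7m := z_mem (𝓜 := 𝓜) (r := 7) (by norm_num)
  have z9m := z_mem (𝓜 := 𝓜) (r := 9) (by norm_num)
  have z11m := z_mem (𝓜 := 𝓜) (r := 11) (by norm_num)
  have z2m := z_mem (𝓜 := 𝓜) (r := 2) (by norm_num)
  -- the coefficient of `Y`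
  obtain ⟨t, ht⟩ : ∃ t : ℚ, t = 2 / 5 * (e - a / 2 + 5 * b) := ⟨_, rfl⟩
  have key : x - ((a / 2) • (𝓜.z 3 * (𝓜.z 3 * 𝓜.z 5)) + b • (𝓜.z 3 * 𝓜.X) + t • 𝓜.Y +
      (c / 3) • (𝓜.z 3 * 𝓜.z 3 * 𝓜.z 3 * 𝓜.z 2) + d • (𝓜.z 3 * 𝓜.z 2 ^ 4) +
      (f - t * q) • (𝓜.z 5 * 𝓜.z 2 ^ 3) + (g - t * q7) • (𝓜.z 7 * 𝓜.z 2 ^ 2) +
      (u - t * q9) • (𝓜.z 9 * 𝓜.z 2) + (v - t * q11) • 𝓜.z 11) = 0 := by
    refine ker_odd (n := 11) (by decide) (Submodule.sub_mem _ hx ?_) ?_
    · refine Submodule.add_mem _ (Submodule.add_mem _ (Submodule.add_mem _ (Submodule.add_mem _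
        (Submodule.add_mem _ (Submodule.add_mem _ (Submodule.add_mem _ (Submodule.add_mem _
        (Submodule.smul_mem _ _ ?_) (Submodule.smul_mem _ _ ?_)) (Submodule.smul_mem _ _ ?_))
        (Submodule.smul_mem _ _ ?_)) (Submodule.smul_mem _ _ ?_)) (Submodule.smul_mem _ _ ?_))
        (Submodule.smul_mem _ _ ?_)) (Submodule.smul_mem _ _ ?_)) (Submodule.smul_mem _ _ ?_)
      · exact z_mul_mem z3m (z_mul_mem z3m z5m rfl) rfl
      · exact z_mul_mem z3m X_mem rfl
      · exact Y_mem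
      · exact z_mul_mem (z_mul_mem (z_mul_mem z3m z3m rfl) z3m rfl) z2m rfl
      · exact z_mul_mem z3m (z2_pow_mem 4) rfl
      · exact z_mul_mem z5m (z2_pow_mem 3) rfl
      · exact z_mul_mem z7m (z2_pow_mem 2) rfl
      · exact z_mul_mem z9m z2m rfl
      · exact z11m
    · intro r hr h1
      obtain rfl | rfl | rfl | rfl | rfl | rfl :
          r = 1 ∨ r = 3 ∨ r = 5 ∨ r = 7 ∨ r = 9 ∨ r = 11 := by
        obtain ⟨k, rfl⟩ := hr; omega
      · simp only [map_sub, map_add, map_smul, h.one', 𝓜.D_mul _ _ _ hr, (z_ur 3).one',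
          (z_ur 5).one', (z_ur 7).one', (z_ur 9).one', (z_ur 11).one', D_z2_pow hr,
          D_z2 hr, X_ur.one', Y_ur.one']
        simp
      · simp only [map_sub, map_add, map_smul, h3, 𝓜.D_mul _ _ _ hr, D_z_self hr le_rfl, D_z2 hr,
          D_z2_pow hr, D_z_high hr (show 3 < 5 by norm_num), D_z_high hr (show 3 < 7 by norm_num),
          D_z_high hr (show 3 < 9 by norm_num), D_z_high hr (show 3 < 11 by norm_num), D3_X, D3_Y,
          mul_zero, zero_mul, add_zero, one_mul, mul_one, add_mul, smul_zero, sub_zero]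
        module
      · simp only [map_sub, map_add, map_smul, h5, 𝓜.D_mul _ _ _ hr,
          D_z_self hr (show 3 ≤ 5 by norm_num), D_z2 hr, D_z2_pow hr,
          D_z_low (show 1 ≤ 3 by norm_num) hr (show 3 < 5 by norm_num),
          D_z_high hr (show 5 < 7 by norm_num), D_z_high hr (show 5 < 9 by norm_num),
          D_z_high hr (show 5 < 11 by norm_num), D5_X, Y5, ht, mul_smul_comm,
          mul_zero, zero_mul, add_zero, zero_add, one_mul, mul_one, smul_zero, sub_zero]
        module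
      · simp only [map_sub, map_add, map_smul, h7, 𝓜.D_mul _ _ _ hr,
          D_z_self hr (show 3 ≤ 7 by norm_num), D_z2 hr, D_z2_pow hr,
          D_z_low (show 1 ≤ 3 by norm_num) hr (show 3 < 7 by norm_num),
          D_z_low (show 1 ≤ 5 by norm_num) hr (show 5 < 7 by norm_num),
          D_z_high hr (show 7 < 9 by norm_num),
          D_z_high hr (show 7 < 11 by norm_num), X7, Y7,
          mul_zero, zero_mul, add_zero, zero_add, one_mul, mul_one, smul_zero, sub_zero]
        module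
      · simp only [map_sub, map_add, map_smul, h9, 𝓜.D_mul _ _ _ hr,
          D_z_self hr (show 3 ≤ 9 by norm_num), D_z2 hr, D_z2_pow hr,
          D_z_low (show 1 ≤ 3 by norm_num) hr (show 3 < 9 by norm_num),
          D_z_low (show 1 ≤ 5 by norm_num) hr (show 5 < 9 by norm_num),
          D_z_low (show 1 ≤ 7 by norm_num) hr (show 7 < 9 by norm_num),
          D_z_high hr (show 9 < 11 by norm_num), X9, Y9,
          mul_zero, zero_mul, add_zero, zero_add, one_mul, mul_one, smul_zero, sub_zero]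
        module
      · simp only [map_sub, map_add, map_smul, h11, 𝓜.D_mul _ _ _ hr,
          D_z_self hr (show 3 ≤ 11 by norm_num), D_z2 hr, D_z2_pow hr,
          D_z_low (show 1 ≤ 3 by norm_num) hr (show 3 < 11 by norm_num),
          D_z_low (show 1 ≤ 5 by norm_num) hr (show 5 < 11 by norm_num),
          D_z_low (show 1 ≤ 7 by norm_num) hr (show 7 < 11 by norm_num),
          D_z_low (show 1 ≤ 9 by norm_num) hr (show 9 < 11 by norm_num), X11, Y11,
          mul_zero, zero_mul, add_zero, zero_add, one_mul, mul_one, smul_zero, sub_zero]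
        module
  exact ⟨_, _, _, _, _, _, _, _, _, sub_eq_zero.1 key⟩

/-! ### Convergent words -/

/-- the convergent words in the letters `0`, `1` -/
def Conv (w : Word) : Prop := Bin w ∧ (∀ x ∈ w.head?, x = 1) ∧ ∀ x ∈ w.getLast?, x = 0

theorem shuffles_ne_nil (u v : Word) : (u ≠ [] ∨ v ≠ []) → ∀ w ∈ shuffles u v, w ≠ [] := by
  intro h w hw
  cases u with
  | nil =>
    simp only [shuffles, List.mem_singleton] at hw
    subst hw
    rcases h with h | h
    · exact absurd rfl h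
    · exact h
  | cons a u =>
    cases v with
    | nil =>
      simp only [shuffles, List.mem_singleton] at hw
      subst hw
      simp
    | cons b v =>
      simp only [shuffles, List.mem_append, List.mem_map] at hw
      rcases hw with ⟨w, -, rfl⟩ | ⟨w, -, rfl⟩ <;> simp

theorem shuffles_bin (n : ℕ) : ∀ u v : Word, u.length + v.length = n → Bin u → Bin v →
    ∀ w ∈ shuffles u v, Bin w := by
  induction n with
  | zero =>
    intro u v h hu hv w hw
    obtain rfl : u = [] := List.length_eq_zero_iff.1 (by omega)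
    simp only [shuffles, List.mem_singleton] at hw
    exact hw ▸ hv
  | succ n ih =>
    intro u v h hu hv w hw
    cases u with
    | nil =>
      simp only [shuffles, List.mem_singleton] at hw
      exact hw ▸ hv
    | cons a u =>
      cases v with
      | nil =>
        simp only [shuffles, List.mem_singleton] at hw
        exact hw ▸ hu
      | cons b v =>
        simp only [shuffles, List.mem_append, List.mem_map] at hw
        simp only [List.length_cons] at h
        rcases hw with ⟨w, hw, rfl⟩ | ⟨w, hw, rfl⟩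
        · have h1 := ih u (b :: v) (by simp only [List.length_cons]; omega)
            (fun x hx => hu x (List.mem_cons_of_mem _ hx)) hv w hw
          intro x hx
          rcases List.mem_cons.1 hx with rfl | hx
          · exact hu x (by simp)
          · exact h1 x hx
        · have h1 := ih (a :: u) v (by simp only [List.length_cons]; omega)
            hu (fun x hx => hv x (List.mem_cons_of_mem _ hx)) w hw
          intro x hx
          rcases List.mem_cons.1 hx with rfl | hx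
          · exact hv x (by simp)
          · exact h1 x hx

theorem shuffles_head (u v : Word) (hu : ∀ x ∈ u.head?, x = 1) (hv : ∀ x ∈ v.head?, x = 1) :
    ∀ w ∈ shuffles u v, ∀ x ∈ w.head?, x = 1 := by
  intro w hw
  cases u with
  | nil =>
    simp only [shuffles, List.mem_singleton] at hw
    exact hw ▸ hv
  | cons a u =>
    cases v with
    | nil =>
      simp only [shuffles, List.mem_singleton] at hw
      exact hw ▸ hu
    | cons b v =>
      simp only [shuffles, List.mem_append, List.mem_map] at hw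
      rcases hw with ⟨w, -, rfl⟩ | ⟨w, -, rfl⟩
      · intro x hx
        exact hu x (by simpa using hx)
      · intro x hx
        exact hv x (by simpa using hx)

theorem getLast?_cons_of_ne_nil {a : SignType} {w : Word} (h : w ≠ []) :
    (a :: w).getLast? = w.getLast? := by
  cases w with
  | nil => exact absurd rfl h
  | cons b w => rw [List.getLast?_cons_cons]

theorem last_tail {a : SignType} {u : Word} (h : ∀ x ∈ (a :: u).getLast?, x = 0) :
    ∀ x ∈ u.getLast?, x = 0 := by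
  cases u with
  | nil => intro x hx; simp at hx
  | cons b u => rwa [List.getLast?_cons_cons] at h

theorem shuffles_last (n : ℕ) : ∀ u v : Word, u.length + v.length = n →
    (∀ x ∈ u.getLast?, x = 0) → (∀ x ∈ v.getLast?, x = 0) →
    ∀ w ∈ shuffles u v, ∀ x ∈ w.getLast?, x = 0 := by
  induction n with
  | zero =>
    intro u v h hu hv w hw
    obtain rfl : u = [] := List.length_eq_zero_iff.1 (by omega)
    simp only [shuffles, List.mem_singleton] at hw
    exact hw ▸ hv
  | succ n ih =>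
    intro u v h hu hv w hw
    cases u with
    | nil =>
      simp only [shuffles, List.mem_singleton] at hw
      exact hw ▸ hv
    | cons a u =>
      cases v with
      | nil =>
        simp only [shuffles, List.mem_singleton] at hw
        exact hw ▸ hu
      | cons b v =>
        simp only [shuffles, List.mem_append, List.mem_map] at hw
        simp only [List.length_cons] at h
        rcases hw with ⟨w, hw, rfl⟩ | ⟨w, hw, rfl⟩
        · rw [getLast?_cons_of_ne_nil (shuffles_ne_nil u (b :: v) (Or.inr (by simp)) w hw)]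
          exact ih u (b :: v) (by simp only [List.length_cons]; omega) (last_tail hu) hv w hw
        · rw [getLast?_cons_of_ne_nil (shuffles_ne_nil (a :: u) v (Or.inl (by simp)) w hw)]
          exact ih (a :: u) v (by simp only [List.length_cons]; omega) hu (last_tail hv) w hw

theorem shuffles_conv {u v w : Word} (hu : Conv u) (hv : Conv v) (hw : w ∈ shuffles u v) :
    Conv w :=
  ⟨shuffles_bin _ u v rfl hu.1 hv.1 w hw, shuffles_head u v hu.2.1 hv.2.1 w hw,
    shuffles_last _ u v rfl hu.2.2 hv.2.2 w hw⟩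

/-- the word of an index, all signs being positive -/
def pword (s : List ℕ) : Word := word (s.map fun k => (k, (1 : SignType)))

theorem prod_ones (s : List ℕ) :
    (((s.map fun k => (k, (1 : SignType)))).map Prod.snd).prod = 1 := by
  induction s with
  | nil => rfl
  | cons k s ih => simp only [List.map_cons, List.prod_cons, ih, mul_one]

theorem pword_cons (k : ℕ) (s : List ℕ) :
    pword (k :: s) = 1 :: (List.replicate (k - 1) 0 ++ pword s) := by
  rw [pword, List.map_cons, word, prod_ones, mul_one]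
  rfl

theorem pword_append (s t : List ℕ) : pword (s ++ t) = pword s ++ pword t := by
  induction s with
  | nil => rfl
  | cons k s ih => rw [List.cons_append, pword_cons, pword_cons, ih]; simp

theorem parse (w : Word) : Bin w → ∃ (k : ℕ) (s : List ℕ), (∀ j ∈ s, 1 ≤ j) ∧
    w = List.replicate k 0 ++ pword s := by
  induction w with
  | nil => intro _; exact ⟨0, [], by simp, rfl⟩
  | cons a w ih =>
    intro h
    obtain ⟨k, s, hs, hw⟩ := ih fun x hx => h x (List.mem_cons_of_mem _ hx)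
    rcases h a (by simp) with rfl | rfl
    · exact ⟨k + 1, s, hs, by rw [hw]; rfl⟩
    · refine ⟨0, (k + 1) :: s, ?_, ?_⟩
      · intro j hj
        rcases List.mem_cons.1 hj with rfl | hj
        · omega
        · exact hs j hj
      · rw [pword_cons, hw]; rfl

theorem conv_parse {w : Word} (h : Conv w) : ∃ s : List ℕ, Admissible s ∧ w = pword s := by
  obtain ⟨k, s, hs, rfl⟩ := parse w h.1
  have hk : k = 0 := by
    rcases Nat.eq_zero_or_pos k with h0 | h0
    · exact h0
    · obtain ⟨m, rfl⟩ := Nat.exists_eq_add_of_le' h0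
      have := h.2.1 0 (by simp [List.replicate_succ])
      exact absurd this (by decide)
  subst hk
  refine ⟨s, ⟨hs, ?_⟩, rfl⟩
  intro j hj
  rcases List.eq_nil_or_concat s with rfl | ⟨t, i, rfl⟩
  · simp at hj
  · have hij : i = j := by simpa using hj
    subst hij
    have h1 : 1 ≤ i := hs i (by simp)
    rcases Nat.lt_or_ge i 2 with h2 | h2
    · obtain rfl : i = 1 := by omega
      have := h.2.2 1 (by
        rw [List.concat_eq_append, pword_append]
        simp [pword_cons, pword, word])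
      exact absurd this (by decide)
    · exact h2

variable (𝓜) in
/-- the span of the convergent words -/
def Z : Submodule ℚ 𝓜.H := Submodule.span ℚ {x | ∃ w : Word, Conv w ∧ x = 𝓜.I w}

theorem Z_le : 𝓜.Z ≤ 𝓜.H1 := by
  rw [Z, Submodule.span_le]
  rintro x ⟨w, hw, rfl⟩
  obtain ⟨s, hs, rfl⟩ := conv_parse hw
  have h1 : 𝓜.eulerSum (s.map fun k => (k, 1)) ∈ 𝓜.H1 := Submodule.subset_span ⟨s, hs, rfl⟩
  rw [eulerSum] at h1
  rcases neg_one_pow_eq_or 𝓜.H (s.map fun k => (k, (1 : SignType))).length with h | h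
  · rw [h, one_mul] at h1
    exact h1
  · rw [h, neg_one_mul] at h1
    have := Submodule.neg_mem _ h1
    rw [neg_neg] at this
    exact this

theorem Z_mul {x y : 𝓜.H} (hx : x ∈ 𝓜.Z) (hy : y ∈ 𝓜.Z) : x * y ∈ 𝓜.Z := by
  have h : 𝓜.Z * 𝓜.Z ≤ 𝓜.Z := by
    rw [Z, Submodule.span_mul_span, Submodule.span_le]
    rintro _ ⟨_, ⟨u, hu, rfl⟩, _, ⟨v, hv, rfl⟩, rfl⟩
    change 𝓜.I u * 𝓜.I v ∈ _
    rw [𝓜.I_mul]
    have h2 : ∀ L : List Word, (∀ w ∈ L, Conv w) → (L.map 𝓜.I).sum ∈
        Submodule.span ℚ {x : 𝓜.H | ∃ w : Word, Conv w ∧ x = 𝓜.I w} := by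
      intro L
      induction L with
      | nil => intro _; exact Submodule.zero_mem _
      | cons w L ih =>
        intro hL
        rw [List.map_cons, List.sum_cons]
        exact Submodule.add_mem _ (Submodule.subset_span ⟨w, hL w (by simp), rfl⟩)
          (ih fun w' hw' => hL w' (List.mem_cons_of_mem _ hw'))
    exact h2 _ fun w hw => shuffles_conv hu hv hw
  exact h (Submodule.mul_mem_mul hx hy)

theorem conv_of {w : Word} (h : w.all (fun a => a == 0 || a == 1) = true)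
    (h1 : w.head? = some 1) (h2 : w.getLast? = some 0) : Conv w := by
  refine ⟨bin_of h, ?_, ?_⟩
  · intro x hx
    rw [h1] at hx
    simpa using hx.symm
  · intro x hx
    rw [h2] at hx
    simpa using hx.symm

theorem Z_z {r : ℕ} (hr : 2 ≤ r) : 𝓜.z r ∈ 𝓜.Z := by
  refine Submodule.neg_mem _ (Submodule.subset_span ⟨_, ⟨?_, ?_, ?_⟩, rfl⟩)
  · intro a ha
    rcases List.mem_cons.1 ha with rfl | ha
    · right; rfl
    · left; exact List.eq_of_mem_replicate ha
  · intro x hx
    simpa using hx.symm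
  · obtain ⟨m, rfl⟩ := Nat.exists_eq_add_of_le hr
    intro x hx
    rw [show 2 + m - 1 = m + 1 by omega, getLast?_cons_of_ne_nil (by simp)] at hx
    have := List.mem_of_getLast? hx
    exact List.eq_of_mem_replicate this

theorem Z_X : 𝓜.X ∈ 𝓜.Z :=
  Submodule.subset_span ⟨_, conv_of (by decide) (by decide) (by decide), rfl⟩

theorem Z_Y : 𝓜.Y ∈ 𝓜.Z :=
  Submodule.subset_span ⟨_, conv_of (by decide) (by decide) (by decide), rfl⟩

theorem Z_one : (1 : 𝓜.H) ∈ 𝓜.Z :=
  Submodule.subset_span ⟨[], ⟨by simp [Bin], by simp, by simp⟩, 𝓜.I_nil.symm⟩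

theorem Z_pow {x : 𝓜.H} (hx : x ∈ 𝓜.Z) (k : ℕ) : x ^ k ∈ 𝓜.Z := by
  induction k with
  | zero => rw [pow_zero]; exact Z_one
  | succ k ih => rw [pow_succ]; exact Z_mul ih hx

theorem ur11_mem {x : 𝓜.H} (hx : x ∈ 𝓜.gr 11) (h : 𝓜.UR x) : x ∈ 𝓜.H1 := by
  obtain ⟨a, b, c, d, e, f, g, u, v, rfl⟩ := ur11 hx h
  have z2 : 𝓜.z 2 ∈ 𝓜.Z := Z_z le_rfl
  have z3 : 𝓜.z 3 ∈ 𝓜.Z := Z_z (by norm_num)
  have z5 : 𝓜.z 5 ∈ 𝓜.Z := Z_z (by norm_num)
  have z7 : 𝓜.z 7 ∈ 𝓜.Z := Z_z (by norm_num)
  have z9 : 𝓜.z 9 ∈ 𝓜.Z := Z_z (by norm_num)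
  have z11 : 𝓜.z 11 ∈ 𝓜.Z := Z_z (by norm_num)
  refine Z_le (Submodule.add_mem _ (Submodule.add_mem _ (Submodule.add_mem _ (Submodule.add_mem _
        (Submodule.add_mem _ (Submodule.add_mem _ (Submodule.add_mem _ (Submodule.add_mem _
        (Submodule.smul_mem _ _ ?_) (Submodule.smul_mem _ _ ?_)) (Submodule.smul_mem _ _ ?_))
        (Submodule.smul_mem _ _ ?_)) (Submodule.smul_mem _ _ ?_)) (Submodule.smul_mem _ _ ?_))
        (Submodule.smul_mem _ _ ?_)) (Submodule.smul_mem _ _ ?_)) (Submodule.smul_mem _ _ ?_))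
  · exact Z_mul z3 (Z_mul z3 z5)
  · exact Z_mul z3 Z_X
  · exact Z_Y
  · exact Z_mul (Z_mul (Z_mul z3 z3) z3) z2
  · exact Z_mul z3 (Z_pow z2 4)
  · exact Z_mul z5 (Z_pow z2 3)
  · exact Z_mul z7 (Z_pow z2 2)
  · exact Z_mul z9 z2
  · exact z11

end MotivicEulerSums

end

end Pool.Agent.L5helper5.MES
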