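import Pool.Agent.L5helper66.TD.Defs2

/-!
# The Cayley-Menger determinant of a tetrahedron is positive
-/

set_option autoImplicit false

open scoped TensorProduct RealInnerProductSpace

namespace Pool.Agent.L5helper5.NF

open Pool.Agent.L5helper66.TD

private theorem inner_of_dist (P Q R : E3) (x y z : ℝ) (hx : dist P Q = |x|) (hy : dist P R = |y|)
    (hz : dist Q R = |z|) : ⟪Q - P, R - P⟫ = (x ^ 2 + y ^ 2 - z ^ 2) / 2 := by
  have h1 : ⟪Q - P, Q - P⟫ = x ^ 2 := by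
    rw [real_inner_self_eq_norm_sq, ← dist_eq_norm, dist_comm, hx, sq_abs]
  have h2 : ⟪R - P, R - P⟫ = y ^ 2 := by
    rw [real_inner_self_eq_norm_sq, ← dist_eq_norm, dist_comm, hy, sq_abs]
  have h3 : ⟪(Q - P) - (R - P), (Q - P) - (R - P)⟫ = z ^ 2 := by
    have : (Q - P) - (R - P) = Q - R := by abel
    rw [this, real_inner_self_eq_norm_sq, ← dist_eq_norm, hz, sq_abs]
  rw [real_inner_sub_sub_self] at h3
  linarith

private theorem inner_self_of_dist (P Q : E3) (x : ℝ) (hx : dist P Q = |x|) :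
    ⟪Q - P, Q - P⟫ = x ^ 2 := by
  rw [real_inner_self_eq_norm_sq, ← dist_eq_norm, dist_comm, hx, sq_abs]

/-- NF1 -/
theorem cm_pos (T : Fin 4 → E3) (hT : AffineIndependent ℝ T) (a b c d e f : ℝ)
    (h : HasEdges T |a| |b| |c| |d| |e| |f|) : 0 < cm a b c d e f := by
  obtain ⟨h01, h02, h03, h12, h13, h23⟩ := h
  have hli : LinearIndependent ℝ (fun i : Fin 3 => T i.succ - T 0) := by
    have h1 := (affineIndependent_iff_linearIndependent_vsub ℝ T 0).1 hT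
    exact h1.comp (fun i : Fin 3 => (⟨i.succ, Fin.succ_ne_zero i⟩ : {x : Fin 4 // x ≠ 0}))
      (fun i j hij => Fin.succ_injective _ (Subtype.ext_iff.1 hij))
  have hdet := (Matrix.posDef_gram_of_linearIndependent (𝕜 := ℝ) hli).det_pos
  rw [Matrix.det_fin_three] at hdet
  simp only [Matrix.gram_apply] at hdet
  have e0 : (Fin.succ (0 : Fin 3) : Fin 4) = 1 := rfl
  have e1 : (Fin.succ (1 : Fin 3) : Fin 4) = 2 := rfl
  have e2 : (Fin.succ (2 : Fin 3) : Fin 4) = 3 := rfl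
  have huu := inner_self_of_dist (T 0) (T 1) a h01
  have hvv := inner_self_of_dist (T 0) (T 2) b h02
  have hww := inner_self_of_dist (T 0) (T 3) c h03
  have huv := inner_of_dist (T 0) (T 1) (T 2) a b d h01 h02 h12
  have huw := inner_of_dist (T 0) (T 1) (T 3) a c e h01 h03 h13
  have hvw := inner_of_dist (T 0) (T 2) (T 3) b c f h02 h03 h23
  have hvu : ⟪T 2 - T 0, T 1 - T 0⟫ = (a ^ 2 + b ^ 2 - d ^ 2) / 2 := by
    rw [real_inner_comm, huv]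
  have hwu : ⟪T 3 - T 0, T 1 - T 0⟫ = (a ^ 2 + c ^ 2 - e ^ 2) / 2 := by
    rw [real_inner_comm, huw]
  have hwv : ⟪T 3 - T 0, T 2 - T 0⟫ = (b ^ 2 + c ^ 2 - f ^ 2) / 2 := by
    rw [real_inner_comm, hvw]
  rw [e0, e1, e2, huu, hvv, hww, huv, huw, hvw, hvu, hwu, hwv] at hdet
  have key : cm a b c d e f = 8 * (a ^ 2 * b ^ 2 * c ^ 2 -
      a ^ 2 * ((b ^ 2 + c ^ 2 - f ^ 2) / 2) * ((b ^ 2 + c ^ 2 - f ^ 2) / 2) -
      (a ^ 2 + b ^ 2 - d ^ 2) / 2 * ((a ^ 2 + b ^ 2 - d ^ 2) / 2) * c ^ 2 +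
      (a ^ 2 + b ^ 2 - d ^ 2) / 2 * ((b ^ 2 + c ^ 2 - f ^ 2) / 2) * ((a ^ 2 + c ^ 2 - e ^ 2) / 2) +
      (a ^ 2 + c ^ 2 - e ^ 2) / 2 * ((a ^ 2 + b ^ 2 - d ^ 2) / 2) * ((b ^ 2 + c ^ 2 - f ^ 2) / 2) -
      (a ^ 2 + c ^ 2 - e ^ 2) / 2 * b ^ 2 * ((a ^ 2 + c ^ 2 - e ^ 2) / 2)) := by
    unfold cm
    ring
  rw [key]
  linarith

end Pool.Agent.L5helper5.NF
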