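import Pool.Agent.L5helper66.TD.Defs2
import Pool.Agent.L5helper83.NFIrr

/-!
# The dihedral angles of the tetrahedra of the quadratic family are not rational multiples of `π`
-/

set_option autoImplicit false

open scoped TensorProduct RealInnerProductSpace

namespace Pool.Agent.L5helper5.NG

open Pool.Agent.L5helper66.TD Pool.Agent.L5helper83.NF

/-- The edges are `qd i j * m ^ 2 + ln i j * m + cn i j`. -/
def qd : Fin 4 → Fin 4 → ℤ := ![![0, 4, 3, -1], ![4, 0, -1, 3], ![3, -1, 0, -2], ![-1, 3, -2, 0]]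

/-- The edges are `qd i j * m ^ 2 + ln i j * m + cn i j`. -/
def ln : Fin 4 → Fin 4 → ℤ := ![![0, 36, 14, 18], ![36, 0, 10, 6], ![14, 10, 0, 8], ![18, 6, 8, 0]]

/-- The edges are `qd i j * m ^ 2 + ln i j * m + cn i j`. -/
def cn : Fin 4 → Fin 4 → ℤ := ![![0, 0, 27, 27], ![0, 0, 27, 27], ![27, 27, 0, 18], ![27, 27, 18, 0]]

/-- The edge as a polynomial in `m`. -/
noncomputable def pl (i j : Fin 4) : Polynomial ℤ :=
  Polynomial.C (qd i j) * Polynomial.X ^ 2 + Polynomial.C (ln i j) * Polynomial.X +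
    Polynomial.C (cn i j)

lemma aeval_pl (i j : Fin 4) (t : ℝ) :
    Polynomial.aeval t (pl i j) = qd i j * t ^ 2 + ln i j * t + cn i j := by
  simp [pl]

/-- The edge for the integral value `t` of `m`. -/
def eg (t : ℤ) (i j : Fin 4) : ℤ := qd i j * t ^ 2 + ln i j * t + cn i j

lemma numeric' : ∀ i j k l : Fin 4, i ≠ j → (k ≠ i ∧ k ≠ j) → (l ≠ i ∧ l ≠ j ∧ l ≠ k) →
    HH (eg 1 i j) (eg 1 i k) (eg 1 i l) (eg 1 j k) (eg 1 j l) (eg 1 k l) *
        GG (eg 2 i j) (eg 2 i k) (eg 2 i l) (eg 2 j k) (eg 2 j l) (eg 2 k l) ≠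
      HH (eg 2 i j) (eg 2 i k) (eg 2 i l) (eg 2 j k) (eg 2 j l) (eg 2 k l) *
        GG (eg 1 i j) (eg 1 i k) (eg 1 i l) (eg 1 j k) (eg 1 j l) (eg 1 k l) := by
  unfold HH GG
  decide

lemma dist_edge' (m : ℝ) (T : Fin 4 → E3)
    (h : HasEdges T |4 * m ^ 2 + 36 * m| |3 * m ^ 2 + 14 * m + 27| |-m ^ 2 + 18 * m + 27|
      |-m ^ 2 + 10 * m + 27| |3 * m ^ 2 + 6 * m + 27| |-2 * m ^ 2 + 8 * m + 18|) (i j : Fin 4) :
    dist (T i) (T j) = |(qd i j * m ^ 2 + ln i j * m + cn i j : ℝ)| := by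
  obtain ⟨h1, h2, h3, h4, h5, h6⟩ := h
  fin_cases i <;> fin_cases j <;>
    simp [qd, ln, cn, h1, h2, h3, h4, h5, h6, dist_comm (T 1) (T 0),
      dist_comm (T 2) (T 0), dist_comm (T 3) (T 0), dist_comm (T 2) (T 1), dist_comm (T 3) (T 1),
      dist_comm (T 3) (T 2)]

/-- NG2: for transcendental `m` no dihedral angle is a rational multiple of `π` -/
theorem C_irr (m : ℝ) (ht : Transcendental ℚ m) (T : Fin 4 → E3)
    (hT : AffineIndependent ℝ T)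
    (h : HasEdges T |4 * m ^ 2 + 36 * m| |3 * m ^ 2 + 14 * m + 27| |-m ^ 2 + 18 * m + 27|
      |-m ^ 2 + 10 * m + 27| |3 * m ^ 2 + 6 * m + 27| |-2 * m ^ 2 + 8 * m + 18|)
    (i j k l : Fin 4) (hi : i ≠ j) (hk : k ≠ i ∧ k ≠ j) (hl : l ≠ i ∧ l ≠ j ∧ l ≠ k) (r : ℚ) :
    dihedral (T i) (T j) (T k) (T l) ≠ r * Real.pi := by
  intro hθ
  have hd := dist_edge' m T h
  have hne : (qd i j * m ^ 2 + ln i j * m + cn i j : ℝ) ≠ 0 := by
    intro h0
    have h1 := hd i j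
    rw [h0, abs_zero, dist_eq_zero] at h1
    exact hi (hT.injective h1)
  have h1 := cos_sq (T i) (T j) (T k) (T l) _ _ _ _ _ _ hne (hd i j)
    (hd i k) (hd i l) (hd j k) (hd j l) (hd k l)
  rw [hθ] at h1
  obtain ⟨κ, hκ⟩ : ∃ κ : ℝ, κ = Real.cos (r * Real.pi) ^ 2 := ⟨_, rfl⟩
  have halg : IsAlgebraic ℚ κ := by rw [hκ]; exact isAlgebraic_cos_sq r
  rw [← hκ] at h1
  have h2 : κ * Polynomial.aeval m (GG (pl i j) (pl i k) (pl i l) (pl j k) (pl j l)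
      (pl k l)) = Polynomial.aeval m (HH (pl i j) (pl i k) (pl i l) (pl j k) (pl j l)
      (pl k l)) := by
    rw [aeval_GG, aeval_HH]
    simp only [aeval_pl]
    exact h1
  have h3 : ∀ t : ℤ, κ * ((GG (eg t i j) (eg t i k) (eg t i l) (eg t j k) (eg t j l)
      (eg t k l) : ℤ) : ℝ) = ((HH (eg t i j) (eg t i k) (eg t i l) (eg t j k) (eg t j l)
      (eg t k l) : ℤ) : ℝ) := by
    intro t
    have h4 := subst_of_transcendental halg ht _ _ h2 t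
    rw [aeval_GG, aeval_HH] at h4
    simp only [aeval_pl] at h4
    unfold GG HH eg at *
    push_cast
    exact h4
  have h5 := h3 1
  have h6 := h3 2
  have h7 : ((HH (eg 1 i j) (eg 1 i k) (eg 1 i l) (eg 1 j k) (eg 1 j l) (eg 1 k l) : ℤ) : ℝ) *
      ((GG (eg 2 i j) (eg 2 i k) (eg 2 i l) (eg 2 j k) (eg 2 j l) (eg 2 k l) : ℤ) : ℝ) =
      ((HH (eg 2 i j) (eg 2 i k) (eg 2 i l) (eg 2 j k) (eg 2 j l) (eg 2 k l) : ℤ) : ℝ) *
      ((GG (eg 1 i j) (eg 1 i k) (eg 1 i l) (eg 1 j k) (eg 1 j l) (eg 1 k l) : ℤ) : ℝ) := by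
    rw [← h5, ← h6]
    ring
  exact numeric' i j k l hi hk hl (by exact_mod_cast h7)

end Pool.Agent.L5helper5.NG
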